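import Mathlib
import Pool.Agent.Q273.CG.Tree

/-!
# The record scale (without the record sieve)
-/

set_option autoImplicit false

namespace Pool.Agent.Q273.CH

open Set Filter Topology MeasureTheory
open scoped ENNReal NNReal

/-- The record scale `f(x) = log x (log₂ x)² log₄ x / (log₃ x)²` (iterated natural logarithms). -/
noncomputable def f (x : ℝ) : ℝ :=
  Real.log x * (Real.log (Real.log x)) ^ 2 * Real.log (Real.log (Real.log (Real.log x))) /
    (Real.log (Real.log (Real.log x))) ^ 2

/-- Every prime is at a distance greater than `H` from the real number `y`. -/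
def Far (H y : ℝ) : Prop := ∀ q : ℕ, q.Prime → H < |(q : ℝ) - y|

lemma Far.mono {H H' y : ℝ} (h : Far H y) (hH : H' ≤ H) : Far H' y := fun q hq => lt_of_le_of_lt hH (h q hq)

/-- `f y ≥ (θ / 8) f x` for large `x` and `x^θ ≤ y ≤ x`; and `f x ≥ log x`. -/
theorem f_ge {θ : ℝ} (h0 : 0 < θ) (h1 : θ ≤ 1) :
    ∀ᶠ x : ℝ in atTop, (∀ y : ℝ, x ^ θ ≤ y → y ≤ x → θ / 8 * f x ≤ f y) ∧ Real.log x ≤ f x := by
  have hl : Tendsto Real.log atTop atTop := Real.tendsto_log_atTop
  have h2 : Tendsto (fun x => Real.log (Real.log x)) atTop atTop := hl.comp hl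
  have h3 : Tendsto (fun x => Real.log (Real.log (Real.log x))) atTop atTop :=
    hl.comp (hl.comp hl)
  have h4 : Tendsto (fun x => Real.log (Real.log (Real.log (Real.log x)))) atTop atTop :=
    hl.comp (hl.comp (hl.comp hl))
  have hs := tendsto_rpow_atTop h0
  have hθ : Real.log θ ≤ 0 := Real.log_nonpos h0.le h1
  filter_upwards [eventually_gt_atTop (1 : ℝ), hl.eventually_ge_atTop 4,
    h2.eventually_ge_atTop (max 4 (-2 * Real.log θ)), h3.eventually_ge_atTop (max 4 (2 * Real.log 2)),
    h4.eventually_ge_atTop (max 4 (2 * Real.log 2))] with x hx1 hx2 hx3 hx4 hx5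
  have hx0 : 0 < x := by linarith
  simp only [max_le_iff] at hx3 hx4 hx5
  obtain ⟨hx3, hx3'⟩ := hx3
  obtain ⟨hx4, hx4'⟩ := hx4
  obtain ⟨hx5, hx5'⟩ := hx5
  refine ⟨fun y hy1 hy2 => ?_, ?_⟩
  · have hy0 : 0 < y := lt_of_lt_of_le (Real.rpow_pos_of_pos hx0 θ) hy1
    have e1 : θ * Real.log x ≤ Real.log y := by
      rw [← Real.log_rpow hx0 θ]
      exact Real.log_le_log (Real.rpow_pos_of_pos hx0 θ) hy1
    have e1' : Real.log y ≤ Real.log x := Real.log_le_log hy0 hy2
    have hθx : 0 < θ * Real.log x := mul_pos h0 (by linarith)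
    have e2 : Real.log θ + Real.log (Real.log x) ≤ Real.log (Real.log y) := by
      rw [← Real.log_mul h0.ne' (by linarith)]
      exact Real.log_le_log hθx e1
    -- one half of the second logarithm
    have e3 : Real.log (Real.log x) / 2 ≤ Real.log (Real.log y) := by linarith
    have e3' : Real.log (Real.log y) ≤ Real.log (Real.log x) :=
      Real.log_le_log (by linarith) e1'
    have e4 : Real.log (Real.log (Real.log x)) - Real.log 2 ≤ Real.log (Real.log (Real.log y)) := by
      rw [← Real.log_div (by linarith) (by norm_num)]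
      exact Real.log_le_log (by linarith) e3
    have e4' : Real.log (Real.log (Real.log y)) ≤ Real.log (Real.log (Real.log x)) :=
      Real.log_le_log (by linarith) e3'
    have e5 : Real.log (Real.log (Real.log x)) / 2 ≤ Real.log (Real.log (Real.log y)) := by linarith
    have e6 : Real.log (Real.log (Real.log (Real.log x))) / 2 ≤
        Real.log (Real.log (Real.log (Real.log y))) := by
      have h5 : Real.log (Real.log (Real.log (Real.log x))) - Real.log 2 ≤
          Real.log (Real.log (Real.log (Real.log y))) := by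
        rw [← Real.log_div (by linarith) (by norm_num)]
        exact Real.log_le_log (by linarith) e5
      linarith
    unfold f
    set A := Real.log x
    set B := Real.log A
    set C := Real.log B
    set D := Real.log C
    set A' := Real.log y
    set B' := Real.log A'
    set C' := Real.log B'
    set D' := Real.log C'
    have hC' : 0 < C' := by linarith
    have hC : 0 < C := by linarith
    have hB : 0 < B := by linarith
    have hA : 0 < A := by linarith
    have hD : 0 < D := by linarith
    have hA' : 0 < A' := lt_of_lt_of_le hθx e1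
    rw [le_div_iff₀ (by positivity)]
    have k1 : C' ^ 2 ≤ C ^ 2 := by gcongr
    have k2 : (B / 2) ^ 2 ≤ B' ^ 2 := by gcongr
    calc θ / 8 * (A * B ^ 2 * D / C ^ 2) * C' ^ 2 ≤ θ / 8 * (A * B ^ 2 * D / C ^ 2) * C ^ 2 := by
          gcongr
      _ = θ * A * (B / 2) ^ 2 * (D / 2) := by field_simp; ring
      _ ≤ A' * B' ^ 2 * D' := by
          gcongr
  · unfold f
    set A := Real.log x
    set B := Real.log A
    set C := Real.log B
    set D := Real.log C
    have hC : 0 < C := by linarith
    have hB : 0 < B := by linarith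
    have hA : 0 < A := by linarith
    have hD : 0 < D := by linarith
    have hCB : C ≤ B := by
      have := Real.log_le_sub_one_of_pos hB
      linarith
    rw [le_div_iff₀ (by positivity)]
    calc A * C ^ 2 ≤ A * B ^ 2 := by gcongr
      _ = A * B ^ 2 * 1 := (mul_one _).symm
      _ ≤ A * B ^ 2 * D := by gcongr; linarith

/-- `f (x^θ) ≥ (θ / 8) f x` for large `x`; and `f x ≥ log x`. -/
theorem f_rpow {θ : ℝ} (h0 : 0 < θ) (h1 : θ ≤ 1) :
    ∀ᶠ x : ℝ in atTop, θ / 8 * f x ≤ f (x ^ θ) ∧ Real.log x ≤ f x := by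
  filter_upwards [f_ge h0 h1, eventually_ge_atTop (1 : ℝ)] with x hx h1x
  refine ⟨hx.1 _ le_rfl ?_, hx.2⟩
  calc x ^ θ ≤ x ^ (1 : ℝ) := Real.rpow_le_rpow_of_exponent_le h1x h1
    _ = x := Real.rpow_one x


end Pool.Agent.Q273.CH
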