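import Mathlib
import Pool.Agent.Q273.CH.Gen

/-!
# Small tools
-/

set_option autoImplicit false

namespace Pool.Agent.Q273.CH

open Set Filter Topology MeasureTheory
open scoped ENNReal NNReal

/-- diagonal choice -/
theorem diag_choice (P : ℕ → ℕ → Prop) (hP : ∀ J, ∀ᶠ n in atTop, P J n) :
    ∃ J : ℕ → ℕ, Tendsto J atTop atTop ∧ ∀ᶠ n in atTop, P (J n) n := by
  classical
  have hP' : ∀ J, ∃ N, ∀ n ≥ N, P J n := fun J => eventually_atTop.1 (hP J)
  refine ⟨fun n => Nat.findGreatest (fun j => ∀ m ≥ n, P j m) n, ?_, ?_⟩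
  · rw [tendsto_atTop]
    intro K
    obtain ⟨N, hN⟩ := hP' K
    filter_upwards [eventually_ge_atTop (max K N)] with n hn
    exact Nat.le_findGreatest ((le_max_left _ _).trans hn)
      (fun m hm => hN m (((le_max_right _ _).trans hn).trans hm))
  · obtain ⟨N, hN⟩ := hP' 0
    filter_upwards [eventually_ge_atTop N] with n hn
    have h := Nat.findGreatest_spec (P := fun j => ∀ m ≥ n, P j m) (n := n) (Nat.zero_le n)
      (fun m hm => hN m (hn.trans hm))
    exact h n le_rfl

/-- moving the point -/
lemma Far.near {H y z d : ℝ} (h : Far H y) (hd : |z - y| ≤ d) : Far (H - d) z := by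
  intro q hq
  have h1 := h q hq
  have h2 : |(q : ℝ) - y| ≤ |(q : ℝ) - z| + |z - y| := by
    have e : (q : ℝ) - y = ((q : ℝ) - z) + (z - y) := by ring
    rw [e]
    exact abs_add_le _ _
  linarith

/-- the record scale tends to infinity -/
lemma f_tendsto : Tendsto f atTop atTop := by
  have h := f_rpow (θ := 1) one_pos le_rfl
  exact tendsto_atTop_mono' _ (h.mono fun x hx => hx.2) Real.tendsto_log_atTop

/-- `0 ≤ f x ≤ x` for large `x` -/
lemma f_le_self : ∀ᶠ x : ℝ in atTop, 0 ≤ f x ∧ f x ≤ x := by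
  have hl : Tendsto Real.log atTop atTop := Real.tendsto_log_atTop
  have h2 : Tendsto (fun x => Real.log (Real.log x)) atTop atTop := hl.comp hl
  have h3 : Tendsto (fun x => Real.log (Real.log (Real.log x))) atTop atTop :=
    hl.comp (hl.comp hl)
  have h4 : Tendsto (fun x => Real.log (Real.log (Real.log (Real.log x)))) atTop atTop :=
    hl.comp (hl.comp (hl.comp hl))
  have h5 : ∀ᶠ x : ℝ in atTop, Real.log x ^ 3 ≤ x := by
    have h6 := (Real.isLittleO_pow_log_id_atTop (n := 3)).bound (show (0 : ℝ) < 1 by norm_num)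
    filter_upwards [h6, eventually_ge_atTop (1 : ℝ)] with x hx hx1
    have hl0 : 0 ≤ Real.log x := Real.log_nonneg hx1
    simp only [id, Real.norm_eq_abs, one_mul] at hx
    rw [abs_of_nonneg (by positivity), abs_of_nonneg (by linarith)] at hx
    exact hx
  filter_upwards [h5, hl.eventually_ge_atTop 1, h2.eventually_ge_atTop 1, h3.eventually_ge_atTop 1,
    h4.eventually_ge_atTop 1] with x hx hx2 hx3 hx4 hx5
  unfold f
  set A := Real.log x
  set B := Real.log A
  set C := Real.log B
  set D := Real.log C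
  have hC : 0 < C := by linarith
  have hB : 0 < B := by linarith
  have hA : 0 < A := by linarith
  have hD : 0 < D := by linarith
  have hDC : D ≤ C := by
    have := Real.log_le_sub_one_of_pos hC
    linarith
  have hBA : B ≤ A := by
    have := Real.log_le_sub_one_of_pos hA
    linarith
  refine ⟨by positivity, ?_⟩
  rw [div_le_iff₀ (by positivity)]
  calc A * B ^ 2 * D ≤ A * A ^ 2 * C := by gcongr
    _ = A ^ 3 * C := by ring
    _ ≤ x * C := by gcongr
    _ ≤ x * C ^ 2 := by
      have hx0 : 0 ≤ x := le_trans (by positivity) hx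
      apply mul_le_mul_of_nonneg_left _ hx0
      nlinarith

/-- the sequence stays above a positive number -/
lemma low_bound (x : ℕ → ℝ) (hx : ∀ n, 0 < x n)
    (hR : Tendsto (fun n => x (n + 1) / x n) atTop atTop) :
    ∃ c0 : ℝ, 0 < c0 ∧ ∀ᶠ n in atTop, c0 ≤ x n := by
  obtain ⟨n1, hn1⟩ := eventually_atTop.1 (hR.eventually_ge_atTop 1)
  refine ⟨x n1, hx n1, ?_⟩
  filter_upwards [eventually_ge_atTop n1] with n hn
  induction n, hn using Nat.le_induction with
  | base => exact le_rfl
  | succ n hn ih =>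
    have h2 := hn1 n hn
    rw [le_div_iff₀ (hx n)] at h2
    linarith

end Pool.Agent.Q273.CH
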