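import Mathlib
import Pool.Agent.Q273.CH.Diag
import Pool.Agent.Y961.JR.Linear

/-!
# The numbers with all terms in record gaps: large intersections with affine images
-/

set_option autoImplicit false

namespace Pool.Agent.Q273.CH

open Set Filter Topology MeasureTheory
open scoped ENNReal NNReal

/-- the uniform form for Diophantine slopes of any sign: one constant `κ`, thresholds depending only on
the slopes, arbitrary constants terms -/
theorem lin_any (r : ℕ) (hr : 1 ≤ r) (τ c : ℝ) (hτ : 0 ≤ τ) (hc : 0 < c) (a : Fin r → ℝ)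
    (hdio : ∀ (H : ℕ) (h : Fin r → ℤ), h ≠ 0 → (∀ j, |h j| ≤ H) → ∀ m : ℤ,
      c * (H : ℝ) ^ (-τ) ≤ |∑ j, (h j : ℝ) * a j - m|) :
    ∃ κ : ℝ, 0 < κ ∧ ∃ Z₀ : ℝ, ∀ Z : ℝ, Z₀ ≤ Z → ∀ M : ℝ, Z ≤ M → ∀ β : Fin r → ℝ,
    (∀ j, Z ≤ a j * M + β j ∧ Z ≤ a j * (M + Z) + β j) →
    ∃ n : ℕ, M < n ∧ (n : ℝ) ≤ M + Z ∧ Far (κ * f Z) n ∧ ∀ j, Far (κ * f Z) (a j * n + β j) := by
  set ε : ℝ := 1 / (τ + 2) with hε
  have hε0 : 0 < ε := by positivity
  have hε1 : ε < 1 := by
    rw [hε, div_lt_one (by positivity)]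
    linarith
  obtain ⟨κ, hκ, Z₁, h1⟩ := Pool.Agent.Y961.JR.linear_uniform r hr ε hε0 hε1.le
  have hexp : -(1 - ε) < -(ε * τ) := by
    have : ε * (τ + 2) = 1 := by rw [hε]; field_simp
    nlinarith
  obtain ⟨Z₂, h2⟩ := eventually_atTop.mp
    ((Pool.Agent.W147.PS.ev_pow (-(1 - ε)) (-(ε * τ)) (1 / c) hexp).and
      (eventually_ge_atTop (1 : ℝ)))
  refine ⟨κ, hκ, max Z₁ Z₂, fun Z hZ M hM β hβ => ?_⟩
  obtain ⟨g2, g3⟩ := h2 Z ((le_max_right _ _).trans hZ)
  have hZ0 : 0 < Z := by linarith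
  have hZε : Z ^ ε ≤ Z := by
    calc Z ^ ε ≤ Z ^ (1 : ℝ) := Real.rpow_le_rpow_of_exponent_le g3 hε1.le
      _ = Z := Real.rpow_one Z
  refine h1 Z ((le_max_left _ _).trans hZ) a β ?_ M (hZε.trans hM) ?_
  · intro h hh hhZ m
    set H : ℕ := ⌊Z ^ ε⌋₊ with hH
    have hHZ : (H : ℝ) ≤ Z ^ ε := Nat.floor_le (Real.rpow_nonneg hZ0.le _)
    have hhH : ∀ j, |h j| ≤ (H : ℤ) := by
      intro j
      have h3 : ((h j).natAbs : ℝ) ≤ Z ^ ε := by
        rw [Nat.cast_natAbs]
        push_cast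
        exact hhZ j
      have h4 : (h j).natAbs ≤ H := Nat.le_floor h3
      rw [Int.abs_eq_natAbs]
      exact_mod_cast h4
    have hH1 : 1 ≤ H := Nat.le_floor (by
      rw [Nat.cast_one]
      exact Real.one_le_rpow g3 hε0.le)
    have hH0 : (0 : ℝ) < H := by exact_mod_cast hH1
    refine le_trans ?_ (hdio H h hh hhH m)
    have e1 : (Z ^ ε) ^ (-τ) ≤ (H : ℝ) ^ (-τ) :=
      Real.rpow_le_rpow_of_nonpos hH0 hHZ (by linarith)
    have e2 : (Z ^ ε) ^ (-τ) = Z ^ (-(ε * τ)) := by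
      rw [← Real.rpow_mul hZ0.le]
      congr 1
      ring
    rw [e2] at e1
    have e3 : Z ^ (-(1 - ε)) ≤ c * Z ^ (-(ε * τ)) := by
      rw [one_div, inv_mul_le_iff₀ hc] at g2
      exact g2
    exact e3.trans (mul_le_mul_of_nonneg_left e1 hc.le)
  · intro n hn1 hn2 j
    obtain ⟨k1, k2⟩ := hβ j
    refine hZε.trans ?_
    rcases le_total 0 (a j) with h | h
    · have := mul_le_mul_of_nonneg_left hn1.le h
      linarith
    · have := mul_le_mul_of_nonpos_left hn2 h
      linarith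

/-- The Diophantine condition for all finite subfamilies. -/
def Dioph {ι : Type} (lam : ι → ℝ) : Prop :=
  ∀ A : Finset ι, ∃ τ c : ℝ, 0 ≤ τ ∧ 0 < c ∧ ∀ (H : ℕ) (h : ι → ℤ), (∃ i ∈ A, h i ≠ 0) →
    (∀ i ∈ A, |h i| ≤ H) → ∀ m : ℤ, c * (H : ℝ) ^ (-τ) ≤ |∑ i ∈ A, (h i : ℝ) * lam i - m|

/-- the uniform form for a finite subfamily -/
theorem lin_set {ι : Type} (lam : ι → ℝ) (hdio : Dioph lam) (A : Finset ι) (hA : A.Nonempty) :
    ∃ κ : ℝ, 0 < κ ∧ ∃ Z₀ : ℝ, ∀ Z : ℝ, Z₀ ≤ Z → ∀ M : ℝ, Z ≤ M → ∀ β : ι → ℝ,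
    (∀ i ∈ A, Z ≤ lam i * M + β i ∧ Z ≤ lam i * (M + Z) + β i) →
    ∃ n : ℕ, M < n ∧ (n : ℝ) ≤ M + Z ∧ Far (κ * f Z) n ∧
      ∀ i ∈ A, Far (κ * f Z) (lam i * n + β i) := by
  classical
  obtain ⟨τ, c, hτ, hc, hd⟩ := hdio A
  set e := A.equivFin with he
  set a : Fin A.card → ℝ := fun j => lam (e.symm j) with ha
  have hsum : ∀ g : A → ℝ, ∑ i : A, g i = ∑ j : Fin A.card, g (e.symm j) := fun g =>
    (Equiv.sum_comp e.symm g).symm
  obtain ⟨κ, hκ, Z₀, h⟩ := lin_any A.card hA.card_pos τ c hτ hc a (by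
    intro H h hh hH m
    set h' : ι → ℤ := fun i => if hi : i ∈ A then h (e ⟨i, hi⟩) else 0 with hh'
    have h1 : ∀ i : A, h' i = h (e i) := by
      intro i
      simp only [hh']
      rw [dif_pos i.2]
    have h2 := hd H h' (by
      have : ∃ j, h j ≠ 0 := by
        by_contra hcon
        push Not at hcon
        exact hh (funext hcon)
      obtain ⟨j, hj⟩ := this
      refine ⟨(e.symm j : A), (e.symm j).2, ?_⟩
      rw [h1, Equiv.apply_symm_apply]
      exact hj) (by
      intro i hi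
      rw [h1 ⟨i, hi⟩]
      exact hH _) m
    have h3 : ∑ i ∈ A, (h' i : ℝ) * lam i = ∑ j, (h j : ℝ) * a j := by
      rw [← Finset.sum_coe_sort A (fun i => (h' i : ℝ) * lam i), hsum]
      apply Finset.sum_congr rfl
      intro j _
      rw [h1, Equiv.apply_symm_apply]
    rw [h3] at h2
    exact h2)
  refine ⟨κ, hκ, Z₀, fun Z hZ M hM β hβ => ?_⟩
  obtain ⟨n, n1, n2, n3, n4⟩ := h Z hZ M hM (fun j => β (e.symm j)) (fun j =>
    hβ (e.symm j) (e.symm j).2)
  refine ⟨n, n1, n2, n3, fun i hi => ?_⟩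
  have h5 := n4 (e ⟨i, hi⟩)
  simp only [ha, Equiv.symm_apply_apply] at h5
  exact h5

/-- core of the affine theorem -/
theorem aff_core {ι : Type} [Countable ι] [Nonempty ι] (lam t : ι → ℝ) (hdio : Dioph lam)
    (ε : ℝ) (h0 : 0 < ε) (h1 : ε < 1) (x : ℕ → ℝ) (hx : ∀ n, 0 < x n)
    (hR : Tendsto (fun n => x (n + 1) / x n) atTop atTop)
    (ψ : ℕ → ℝ) (hψ : Tendsto ψ atTop (𝓝 0)) (u v : ℝ) (hu : 0 < u) (huv : u < v) :
    ENNReal.ofReal (1 - ε) ≤
      dimH {α : ℝ | u < α ∧ α < v ∧ (∀ᶠ n in atTop, Far (ψ n * f (x (n + 1) / x n)) (α * x (n + 1))) ∧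
        ∀ i, 0 < lam i * α + t i →
          ∀ᶠ n in atTop, Far (ψ n * f (x (n + 1) / x n)) ((lam i * α + t i) * x (n + 1))} := by
  classical
  obtain ⟨c0, hc0, hxc⟩ := low_bound x hx hR
  obtain ⟨i0⟩ := (inferInstance : Nonempty ι)
  obtain ⟨enc, henc⟩ := exists_injective_nat ι
  -- the finite sets
  have hfin : ∀ J : ℕ, {i : ι | enc i < J ∨ i = i0}.Finite := by
    intro J
    apply Set.Finite.subset ((((Set.finite_Iio J).preimage henc.injOn)).union (Set.finite_singleton i0))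
    rintro i (hi | hi)
    · exact Or.inl hi
    · exact Or.inr hi
  set A : ℕ → Finset ι := fun J => (hfin J).toFinset with hAdef
  have hAmem : ∀ J i, i ∈ A J ↔ enc i < J ∨ i = i0 := by
    intro J i
    simp [hAdef]
  set P : ℕ → ℕ → Prop := fun J n => ∀ w : ℝ, u * x (n + 1) ≤ w → ∃ m : ℝ, w ≤ m ∧
      m + 1 / 2 ≤ w + 2 * (x (n + 1) / x n) ^ (ε / 2) ∧
      Icc m (m + 1 / 2) ⊆ {y | Far (ψ n * f (x (n + 1) / x n)) y ∧
        ∀ i ∈ A J, 1 / ((J : ℝ) + 1) * x (n + 1) ≤ lam i * y + t i * x (n + 1) →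
          Far (ψ n * f (x (n + 1) / x n)) (lam i * y + t i * x (n + 1))} with hP
  have hPJ : ∀ J, ∀ᶠ n in atTop, P J n := by
    intro J
    obtain ⟨κ, hκ, Z0, hZ0⟩ := lin_set lam hdio (A J) ⟨i0, (hAmem J i0).2 (Or.inr rfl)⟩
    set L : ℝ := 1 + ∑ i ∈ A J, |lam i| with hL
    have hLi : ∀ i ∈ A J, |lam i| ≤ L := by
      intro i hi
      have := Finset.single_le_sum (f := fun i => |lam i|) (fun i _ => abs_nonneg _) hi
      linarith
    have hL1 : 1 ≤ L := by
      have : 0 ≤ ∑ i ∈ A J, |lam i| := Finset.sum_nonneg fun i _ => abs_nonneg _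
      linarith
    have hfR : Tendsto (fun n => f (x (n + 1) / x n)) atTop atTop := f_tendsto.comp hR
    have hRe : Tendsto (fun n => (x (n + 1) / x n) ^ (ε / 2)) atTop atTop :=
      (tendsto_rpow_atTop (by positivity)).comp hR
    have hRe2 : ∀ K : ℝ, 0 < K → ∀ᶠ R : ℝ in atTop, K * R ^ (ε / 2) ≤ c0 * R := by
      intro K hK
      have := tendsto_rpow_atTop (show (0 : ℝ) < 1 - ε / 2 by linarith)
      filter_upwards [this.eventually_ge_atTop (K / c0), eventually_gt_atTop 0] with R h3 h4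
      have h5 : R = R ^ (ε / 2) * R ^ (1 - ε / 2) := by
        rw [← Real.rpow_add h4]; norm_num
      rw [div_le_iff₀ hc0] at h3
      have h7 : 0 < R ^ (ε / 2) := Real.rpow_pos_of_pos h4 _
      calc K * R ^ (ε / 2) = R ^ (ε / 2) * K := mul_comm _ _
        _ ≤ R ^ (ε / 2) * (R ^ (1 - ε / 2) * c0) := by gcongr
        _ = c0 * (R ^ (ε / 2) * R ^ (1 - ε / 2)) := by ring
        _ = c0 * R := by rw [← h5]
    filter_upwards [hRe.eventually_ge_atTop (max Z0 1), hR.eventually (hRe2 (1 / u) (by positivity)),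
      hR.eventually (hRe2 ((1 + 4 * L) * (J + 1)) (by positivity)), hxc,
      hR.eventually (f_rpow (θ := ε / 2) (by positivity) (by linarith)),
      hfR.eventually_ge_atTop (2 * L / (κ * (ε / 2 / 8))),
      hψ.eventually_le_const (show (0 : ℝ) < κ * (ε / 2 / 8) / 2 by positivity)]
      with n k1 k2 k2' k3 k4 k5 k6
    have hRn : 0 < x (n + 1) / x n := div_pos (hx _) (hx _)
    set R := x (n + 1) / x n with hRdef
    have hxR : x (n + 1) = R * x n := by rw [hRdef, div_mul_cancel₀ _ (hx n).ne']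
    have hxn1 := hx (n + 1)
    set Z : ℝ := R ^ (ε / 2) with hZdef
    have hZpos : 0 < Z := Real.rpow_pos_of_pos hRn _
    have hZ1 : 1 ≤ Z := (le_max_right _ _).trans k1
    have hc0x : c0 * R ≤ x (n + 1) := by
      rw [hxR, mul_comm]
      exact mul_le_mul_of_nonneg_left k3 hRn.le
    intro w hw
    have hwZ : Z ≤ w := by
      have h2 := k2.trans hc0x
      rw [one_div, inv_mul_le_iff₀ hu] at h2
      exact h2.trans hw
    -- the constant terms
    set β : ι → ℝ := fun j =>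
      if Z ≤ lam j * w + t j * x (n + 1) ∧ Z ≤ lam j * (w + Z) + t j * x (n + 1) then
        t j * x (n + 1) else |lam j| * (w + Z) + Z with hβ
    obtain ⟨m, m1, m2, m3, m4⟩ := hZ0 Z ((le_max_left _ _).trans k1) w hwZ β (by
      intro j _
      simp only [hβ]
      split_ifs with hcond
      · exact hcond
      · have e1 : -(|lam j| * w) ≤ lam j * w := by
          have := neg_abs_le (lam j)
          nlinarith
        have e2 : -(|lam j| * (w + Z)) ≤ lam j * (w + Z) := by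
          have := neg_abs_le (lam j)
          nlinarith
        have e3 : 0 ≤ |lam j| * Z := by positivity
        constructor
        · nlinarith
        · linarith)
    refine ⟨m, m1.le, ?_, ?_⟩
    · linarith
    · intro y hy
      have hκf : ψ n * f R + L ≤ κ * f Z := by
        have e1 : κ * (ε / 2 / 8 * f R) ≤ κ * f (R ^ (ε / 2)) :=
          mul_le_mul_of_nonneg_left k4.1 hκ.le
        have e2 : 2 * L ≤ f R * (κ * (ε / 2 / 8)) := by
          rw [div_le_iff₀ (by positivity)] at k5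
          exact k5
        have hf0 : 0 ≤ f R := by
          by_contra hneg
          push Not at hneg
          have : f R * (κ * (ε / 2 / 8)) < 0 := mul_neg_of_neg_of_pos hneg (by positivity)
          linarith
        have e3 : ψ n * f R ≤ κ * (ε / 2 / 8) / 2 * f R := mul_le_mul_of_nonneg_right k6 hf0
        nlinarith
      have hdy : |y - m| ≤ 1 / 2 := by
        rw [abs_le]
        constructor <;> linarith [hy.1, hy.2]
      refine ⟨(Far.near m3 hdy).mono (by linarith), fun i hi hpos => ?_⟩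
      have h5 := m4 i hi
      have hLi' := hLi i hi
      have h6 : |(lam i * y + t i * x (n + 1)) - (lam i * m + t i * x (n + 1))| ≤ L / 2 := by
        rw [show (lam i * y + t i * x (n + 1)) - (lam i * m + t i * x (n + 1)) = lam i * (y - m) by ring,
          abs_mul]
        calc |lam i| * |y - m| ≤ L * (1 / 2) := by
              apply mul_le_mul hLi' hdy (abs_nonneg _) (by linarith)
          _ = L / 2 := by ring
      -- the form is large on the whole window
      have hbig : (1 + 4 * L) * Z ≤ 1 / ((J : ℝ) + 1) * x (n + 1) := by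
        have hJ : (0 : ℝ) < (J : ℝ) + 1 := by positivity
        rw [one_div, ← div_eq_inv_mul, le_div_iff₀ hJ]
        have := k2'.trans hc0x
        linarith
      have hlow : ∀ z : ℝ, |z - y| ≤ 2 * Z → Z ≤ lam i * z + t i * x (n + 1) := by
        intro z hz
        have e1 : |lam i * (z - y)| ≤ L * (2 * Z) := by
          rw [abs_mul]
          exact mul_le_mul hLi' hz (abs_nonneg _) (by linarith)
        have e2 := (abs_le.1 e1).1
        have e3 : lam i * z + t i * x (n + 1) =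
            (lam i * y + t i * x (n + 1)) + lam i * (z - y) := by ring
        rw [e3]
        have hLZ : 0 ≤ L * Z := by positivity
        linarith
      have hcond : Z ≤ lam i * w + t i * x (n + 1) ∧ Z ≤ lam i * (w + Z) + t i * x (n + 1) := by
        constructor
        · apply hlow
          rw [abs_le]
          constructor <;> linarith [hy.1, hy.2]
        · apply hlow
          rw [abs_le]
          constructor <;> linarith [hy.1, hy.2]
      have h7 : β i = t i * x (n + 1) := by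
        simp only [hβ]
        rw [if_pos hcond]
      rw [h7] at h5
      exact (Far.near h5 h6).mono (by linarith)
  obtain ⟨J, hJ1, hJ2⟩ := diag_choice P hPJ
  have key := dil_gen ε h0 h1 x hx hR (fun n => {y | Far (ψ n * f (x (n + 1) / x n)) y ∧
        ∀ i ∈ A (J n), 1 / ((J n : ℝ) + 1) * x (n + 1) ≤ lam i * y + t i * x (n + 1) →
          Far (ψ n * f (x (n + 1) / x n)) (lam i * y + t i * x (n + 1))}) u v hu huv hJ2
  refine key.trans (dimH_mono ?_)
  rintro α ⟨hα1, hα2, hα3⟩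
  refine ⟨hα1, hα2, hα3.mono fun n hn => hn.1, fun i hi => ?_⟩
  have hJr : Tendsto (fun n => 1 / ((J n : ℝ) + 1)) atTop (𝓝 0) :=
    tendsto_one_div_add_atTop_nhds_zero_nat.comp hJ1
  filter_upwards [hα3, hJ1.eventually_gt_atTop (enc i), hJr.eventually_le_const hi] with n hn hi2 h3
  have h4 := hn.2 i ((hAmem (J n) i).2 (Or.inl hi2))
  have h5 : lam i * (α * x (n + 1)) + t i * x (n + 1) = (lam i * α + t i) * x (n + 1) := by ring
  rw [h5] at h4
  exact h4 (mul_le_mul_of_nonneg_right h3 (hx _).le)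

end Pool.Agent.Q273.CH
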