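import Mathlib
import Pool.Agent.Q273.CH.Aff
import Pool.Agent.Y961.JR.Expo

/-!
# The Diophantine condition for algebraic multiples of powers of `e`
-/

set_option autoImplicit false

namespace Pool.Agent.Q273.CH

open Set Filter Topology MeasureTheory Module
open scoped ENNReal NNReal

theorem dioph_alg {ι : Type} (b : ι → ℝ) (hb : ∀ i, IsAlgebraic ℚ (b i)) (w : ι → ℕ)
    (hli : LinearIndependent ℚ
      (fun o : Option ι => o.elim (1 : ℝ) (fun i => b i * Real.exp (w i)))) :
    Dioph (fun i => b i * Real.exp (w i)) := by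
  classical
  intro A
  set e := A.equivFin with he
  set r := A.card with hr
  set s : Fin r → ι := fun j => e.symm j with hs
  have hsinj : Function.Injective s := fun p q hpq => e.symm.injective (Subtype.ext hpq)
  set S : Set ℝ := Set.range (fun j : Fin r => b (s j)) with hS
  have hSf : S.Finite := Set.finite_range _
  have : Finite S := hSf
  have : FiniteDimensional ℚ (IntermediateField.adjoin ℚ S) := by
    apply IntermediateField.finiteDimensional_adjoin
    rintro _ ⟨j, rfl⟩
    exact (hb (s j)).isIntegral
  set K := IntermediateField.adjoin ℚ S with hK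
  set b' : Fin r → K := fun j => ⟨b (s j), IntermediateField.subset_adjoin ℚ S ⟨j, rfl⟩⟩ with hb'
  set w' : Fin r → ℕ := fun j => w (s j) with hw'
  set R : ℕ := ∑ j, w' j with hR
  have hli2 : LinearIndependent ℚ
      (Fin.cons 1 (fun j : Fin r => b (s j) * Real.exp (w (s j))) : Fin (r + 1) → ℝ) := by
    have h1 := hli.comp (Fin.cons none (fun j : Fin r => some (s j)) : Fin (r + 1) → Option ι) (by
      intro p q hpq
      induction p using Fin.cases with
      | zero =>
        induction q using Fin.cases with
        | zero => rfl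
        | succ q => simp at hpq
      | succ p =>
        induction q using Fin.cases with
        | zero => simp at hpq
        | succ q =>
          simp only [Fin.cons_succ, Option.some.injEq] at hpq
          rw [hsinj hpq])
    convert h1 using 1
    funext j
    induction j using Fin.cases with
    | zero => simp
    | succ j => simp
  have hfun : (fun j : Fin (r + 1) => (((Fin.cons 1 b' : Fin (r + 1) → K) j : K) : ℝ) *
      Real.exp (((Fin.cons 0 w' : Fin (r + 1) → ℕ) j : ℕ) : ℝ)) =
      (Fin.cons 1 (fun j : Fin r => b (s j) * Real.exp (w (s j))) : Fin (r + 1) → ℝ) := by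
    funext j
    refine Fin.cases ?_ (fun j => ?_) j
    · simp
    · simp [hb', hw']
  obtain ⟨c₀, hc₀, hMeas⟩ := Pool.Agent.TH629.ExpAlg.meas_exp_field K
    (Fin.cons 1 b' : Fin (r + 1) → K) (Fin.cons 0 w' : Fin (r + 1) → ℕ) R (by
      intro j
      refine Fin.cases ?_ (fun j => ?_) j
      · simp
      · simp only [Fin.cons_succ]
        exact Finset.single_le_sum (fun _ _ => Nat.zero_le _) (Finset.mem_univ j))
    (by rw [hfun]; exact hli2) 1 one_pos
  rw [hfun] at hMeas
  set τ : ℝ := (finrank ℚ K : ℝ) * (finrank ℚ K * R + 1) - 1 + 1 with hτ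
  have hτ0 : 0 ≤ τ := by
    rw [hτ, sub_add_cancel]
    positivity
  obtain ⟨c, hc, h⟩ := Pool.Agent.Y961.JR.dioph_of_meas
    (fun j : Fin r => b (s j) * Real.exp (w (s j))) τ c₀ hτ0 hc₀ hMeas
  refine ⟨τ, c, hτ0, hc, fun H g hg hH m => ?_⟩
  have h1 := h H (fun j => g (s j)) (by
    obtain ⟨i, hi, hgi⟩ := hg
    intro h2
    apply hgi
    have h3 := congrFun h2 (e ⟨i, hi⟩)
    simp only [hs, Equiv.symm_apply_apply, Pi.zero_apply] at h3
    exact h3) (fun j => hH _ (e.symm j).2) m
  have h2 : ∑ i ∈ A, (g i : ℝ) * (b i * Real.exp (w i)) =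
      ∑ j, (g (s j) : ℝ) * (b (s j) * Real.exp (w (s j))) := by
    rw [← Finset.sum_coe_sort A (fun i => (g i : ℝ) * (b i * Real.exp (w i))),
      ← Equiv.sum_comp e.symm]
  rw [h2]
  exact h1

end Pool.Agent.Q273.CH
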