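import Mathlib
import Pool.Agent.Q273.CH.Aff
import Pool.Agent.Q273.CH.Alg

/-!
# Large intersections: final form
-/

set_option autoImplicit false

namespace Pool.Agent.Q273.CH

open Set Filter Topology MeasureTheory
open scoped ENNReal NNReal

/-- The `α` all of whose multiples `α x (n + 1)`, `n` large, are farther than `ψ n f(x(n+1)/x n)` from
all primes. -/
def AllFar (x ψ : ℕ → ℝ) : Set ℝ :=
  {α | ∀ᶠ n in atTop, Far (ψ n * f (x (n + 1) / x n)) (α * x (n + 1))}

/-- negative numbers -/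
lemma neg_mem (x ψ : ℕ → ℝ) (hx : ∀ n, 0 < x n)
    (hR : Tendsto (fun n => x (n + 1) / x n) atTop atTop) (hψ : Tendsto ψ atTop (𝓝 0))
    (α : ℝ) (hα : α < 0) : α ∈ AllFar x ψ := by
  obtain ⟨c0, hc0, hxc⟩ := low_bound x hx hR
  have hpos : 0 < -α * c0 := mul_pos (by linarith) hc0
  have h1 : ∀ᶠ n in atTop, Far (ψ n * f (x (n + 1) / x n)) (α * x (n + 1)) := by
    filter_upwards [hxc, hR.eventually f_le_self,
      hψ.eventually_le_const hpos, hR.eventually_ge_atTop 1] with n h3 h4 h5 h6 q hq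
    have h7 : x (n + 1) = x (n + 1) / x n * x n := (div_mul_cancel₀ _ (hx n).ne').symm
    set R := x (n + 1) / x n
    have h8 : ψ n * f R ≤ -α * c0 * R := by
      calc ψ n * f R ≤ -α * c0 * f R := mul_le_mul_of_nonneg_right h5 h4.1
        _ ≤ -α * c0 * R := mul_le_mul_of_nonneg_left h4.2 hpos.le
    have h9 : -α * c0 * R ≤ -(α * x (n + 1)) := by
      rw [h7]
      have := mul_le_mul_of_nonneg_left (h3) (show 0 ≤ -α * R by nlinarith)
      nlinarith
    have h10 : (0 : ℝ) < q := by exact_mod_cast hq.pos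
    have h11 : (q : ℝ) - α * x (n + 1) ≤ |(q : ℝ) - α * x (n + 1)| := le_abs_self _
    linarith
  exact h1

lemma dioph_ne {ι : Type} {lam : ι → ℝ} (h : Dioph lam) (i : ι) : lam i ≠ 0 := by
  classical
  intro h0
  obtain ⟨τ, c, hτ, hc, hd⟩ := h {i}
  have h1 := hd 1 (fun _ => 1) ⟨i, by simp, by norm_num⟩ (by simp) 0
  rw [Finset.sum_singleton, h0] at h1
  simp at h1
  linarith

/-- **large intersections** -/
theorem aff_dim {ι : Type} [Countable ι] [Nonempty ι] (lam t : ι → ℝ) (hdio : Dioph lam) (x : ℕ → ℝ) (hx : ∀ n, 0 < x n)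
    (hR : Tendsto (fun n => x (n + 1) / x n) atTop atTop)
    (ψ : ℕ → ℝ) (hψ : Tendsto ψ atTop (𝓝 0)) (u v : ℝ) (hv : 0 < v) (huv : u < v) :
    dimH {α : ℝ | 0 < α ∧ u < α ∧ α < v ∧ α ∈ AllFar x ψ ∧ ∀ i, lam i * α + t i ∈ AllFar x ψ} = 1 := by
  apply le_antisymm
  · calc _ ≤ dimH (Set.univ : Set ℝ) := dimH_mono (Set.subset_univ _)
      _ = 1 := Real.dimH_univ
  · refine le_of_forall_lt fun s hs => ?_
    have hs1 : s ≠ ∞ := (hs.trans ENNReal.one_lt_top).ne
    lift s to ℝ≥0 using hs1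
    have hs2 : (s : ℝ) < 1 := by exact_mod_cast hs
    set ε : ℝ := (1 - s) / 2 with hε
    have hε0 : 0 < ε := by rw [hε]; linarith
    have hε1 : ε < 1 := by rw [hε]; have h2 : (0 : ℝ) ≤ s := s.2; linarith
    set w : ℝ := (max u 0 + v) / 2 with hw
    have hw0 : 0 < w := by
      rw [hw]; have := le_max_right u 0; linarith
    have hwv : w < v := by
      rw [hw]; have := max_lt huv hv; linarith
    have hwu : u < w := by
      rw [hw]; have := le_max_left u 0; linarith
    have key := aff_core lam t hdio ε hε0 hε1 x hx hR ψ hψ w v hw0 hwv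
    have h3 : (s : ℝ≥0∞) < ENNReal.ofReal (1 - ε) := by
      rw [ENNReal.lt_ofReal_iff_toReal_lt ENNReal.coe_ne_top, ENNReal.coe_toReal]
      rw [hε]; linarith
    set C : Set ℝ := Set.range (fun i : ι => -t i / lam i) with hC
    have hCc : C.Countable := Set.countable_range _
    set T : Set ℝ := {α : ℝ | 0 < α ∧ u < α ∧ α < v ∧ α ∈ AllFar x ψ ∧
      ∀ i, lam i * α + t i ∈ AllFar x ψ} with hT
    have hsub : {α : ℝ | w < α ∧ α < v ∧ (∀ᶠ n in atTop, Far (ψ n * f (x (n + 1) / x n)) (α * x (n + 1))) ∧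
        ∀ i, 0 < lam i * α + t i →
          ∀ᶠ n in atTop, Far (ψ n * f (x (n + 1) / x n)) ((lam i * α + t i) * x (n + 1))} ⊆ T ∪ C := by
      rintro α ⟨hα1, hα2, hα3, hα4⟩
      by_cases hαC : α ∈ C
      · exact Or.inr hαC
      · refine Or.inl ⟨by linarith, by linarith, hα2, hα3, fun i => ?_⟩
        rcases lt_trichotomy 0 (lam i * α + t i) with h5 | h5 | h5
        · exact hα4 i h5
        · exfalso
          apply hαC
          refine ⟨i, ?_⟩
          have h6 := dioph_ne hdio i
          field_simp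
          linarith
        · exact neg_mem x ψ hx hR hψ _ h5
    have h4 : dimH (T ∪ C) = dimH T := by
      rw [dimH_union, hCc.dimH_zero]
      simp
    have h5 := key.trans (dimH_mono hsub)
    rw [h4] at h5
    exact h3.trans_le h5

/-- sums: every real `t > 0` is `α + lam β` -/
theorem sum_dim (lam : ℝ) (hlam : 0 < lam) (halg : IsAlgebraic ℚ lam) (hirr : Irrational lam)
    (x : ℕ → ℝ) (hx : ∀ n, 0 < x n)
    (hR : Tendsto (fun n => x (n + 1) / x n) atTop atTop)
    (ψ : ℕ → ℝ) (hψ : Tendsto ψ atTop (𝓝 0)) (t : ℝ) (ht : 0 < t) :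
    dimH {α : ℝ | ∃ β : ℝ, 0 < α ∧ 0 < β ∧ α ∈ AllFar x ψ ∧ β ∈ AllFar x ψ ∧ t = α + lam * β} = 1 := by
  have hli : LinearIndependent ℚ
      (fun o : Option Unit => o.elim (1 : ℝ) (fun i => (-lam⁻¹ : ℝ) * Real.exp ((0 : ℕ) : ℝ))) := by
    rw [Fintype.linearIndependent_iff]
    intro g hg
    rw [Fintype.sum_option] at hg
    simp only [Option.elim_none, Option.elim_some, Finset.univ_unique, Finset.sum_singleton,
      Nat.cast_zero, Real.exp_zero, mul_one, Rat.smul_def] at hg
    have h1 : g (some default) = 0 := by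
      by_contra hne
      apply hirr
      have hne' : ((g (some default) : ℚ) : ℝ) ≠ 0 := by exact_mod_cast hne
      have h2 : ((g none : ℚ) : ℝ) ≠ 0 := by
        intro h0
        rw [h0, zero_add, mul_neg, neg_eq_zero, mul_eq_zero] at hg
        rcases hg with h | h
        · exact hne' h
        · exact (inv_ne_zero hlam.ne') h
      refine ⟨g (some default) / g none, ?_⟩
      push_cast
      field_simp
      field_simp at hg
      linarith
    have h2 : g none = 0 := by
      rw [h1] at hg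
      simp only [Rat.cast_zero, zero_mul, add_zero] at hg
      exact_mod_cast hg
    intro o
    cases o with
    | none => exact h2
    | some o => exact h1
  have hdio := dioph_alg (ι := Unit) (fun _ => (-lam⁻¹ : ℝ)) (fun _ => halg.inv.neg) (fun _ => 0) hli
  have key := aff_dim (ι := Unit) _ (fun _ => t / lam) hdio x hx hR ψ hψ 0 t ht ht
  apply le_antisymm
  · calc _ ≤ dimH (Set.univ : Set ℝ) := dimH_mono (Set.subset_univ _)
      _ = 1 := Real.dimH_univ
  · rw [← key]
    apply dimH_mono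
    rintro α ⟨h1, _, h3, h4, h5⟩
    have h6 := h5 ()
    have h7 : -lam⁻¹ * Real.exp ((0 : ℕ) : ℝ) * α + t / lam = (t - α) / lam := by
      simp only [Nat.cast_zero, Real.exp_zero, mul_one]
      field_simp
      ring
    rw [h7] at h6
    refine ⟨(t - α) / lam, h1, div_pos (by linarith) hlam, h4, h6, ?_⟩
    field_simp
    ring

end Pool.Agent.Q273.CH
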