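import Mathlib
import Pool.Agent.Q273.CH.Diag

/-!
# Merging the bases
-/

set_option autoImplicit false

namespace Pool.Agent.Q273.CH

open Set Filter Topology MeasureTheory
open scoped ENNReal NNReal

/-- next pair -/
def nx (J : ℕ → ℕ) (s : ℕ × ℕ) : ℕ × ℕ := if s.2 + 1 ≤ J s.1 then (s.1, s.2 + 1) else (s.1 + 1, 2)

/-- the pairs (place, base) in increasing order -/
def sq (J : ℕ → ℕ) : ℕ → ℕ × ℕ
  | 0 => (0, 2)
  | k + 1 => nx J (sq J k)

lemma sq_bd (J : ℕ → ℕ) (hJ : ∀ n, 2 ≤ J n) (k : ℕ) :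
    2 ≤ (sq J k).2 ∧ (sq J k).2 ≤ J (sq J k).1 ∧ (sq J k).1 ≤ k := by
  induction k with
  | zero => exact ⟨le_rfl, hJ 0, le_rfl⟩
  | succ k ih =>
    obtain ⟨h1, h2, h3⟩ := ih
    simp only [sq, nx]
    split_ifs with h
    · exact ⟨by simp; omega, h, by simp; omega⟩
    · exact ⟨le_rfl, hJ _, by simp; omega⟩

lemma sq_run (J : ℕ → ℕ) (k n b : ℕ) (h : sq J k = (n, b)) (j : ℕ) (hj : b + j ≤ J n) :
    sq J (k + j) = (n, b + j) := by
  induction j with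
  | zero => simpa using h
  | succ j ih =>
    have h2 := ih (by omega)
    rw [← add_assoc]
    simp only [sq, nx, h2]
    rw [if_pos (by omega)]
    rfl

lemma sq_reach (J : ℕ → ℕ) (hJ : ∀ n, 2 ≤ J n) (n : ℕ) : ∃ k, sq J k = (n, 2) := by
  induction n with
  | zero => exact ⟨0, rfl⟩
  | succ n ih =>
    obtain ⟨k, hk⟩ := ih
    have h2 := sq_run J k n 2 hk (J n - 2) (by have := hJ n; omega)
    have h3 : 2 + (J n - 2) = J n := by have := hJ n; omega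
    rw [h3] at h2
    refine ⟨k + (J n - 2) + 1, ?_⟩
    simp only [sq, nx, h2]
    rw [if_neg (by omega)]

lemma sq_pair (J : ℕ → ℕ) (hJ : ∀ n, 2 ≤ J n) (n b : ℕ) (h1 : 2 ≤ b) (h2 : b ≤ J n) :
    ∃ k, sq J k = (n, b) := by
  obtain ⟨k, hk⟩ := sq_reach J hJ n
  refine ⟨k + (b - 2), ?_⟩
  have := sq_run J k n 2 hk (b - 2) (by omega)
  rw [this]
  congr 1
  omega

lemma sq_mono (J : ℕ → ℕ) (k : ℕ) : (sq J k).1 ≤ (sq J (k + 1)).1 := by
  simp only [sq, nx]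
  split_ifs <;> simp

lemma sq_tend (J : ℕ → ℕ) (hJ : ∀ n, 2 ≤ J n) : Tendsto (fun k => (sq J k).1) atTop atTop := by
  have hm : Monotone (fun k => (sq J k).1) := monotone_nat_of_le_succ (sq_mono J)
  refine tendsto_atTop_atTop_of_monotone hm fun n => ?_
  obtain ⟨k, hk⟩ := sq_reach J hJ n
  exact ⟨k, by simp [hk]⟩

end Pool.Agent.Q273.CH
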