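import Mathlib
import Pool.Agent.Q273.CH.Mrg

/-!
# All bases at once
-/

set_option autoImplicit false

namespace Pool.Agent.Q273.CH

open Set Filter Topology MeasureTheory
open scoped ENNReal NNReal

/-- exponent of the windows -/
noncomputable def th (ε : ℝ) (J : ℕ) : ℝ := ε / (4 * (J : ℝ) ^ 2)

/-- the powers in increasing order -/
noncomputable def XX (J m : ℕ → ℕ) (k : ℕ) : ℝ := ((sq J k).2 : ℝ) ^ (m (sq J k).1)

lemma XX_pos (J m : ℕ → ℕ) (hJ : ∀ n, 2 ≤ J n) (k : ℕ) : 0 < XX J m k := by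
  have := (sq_bd J hJ k).1
  have h2 : (0 : ℝ) < ((sq J k).2 : ℝ) := by exact_mod_cast (by omega : 0 < (sq J k).2)
  exact pow_pos h2 _

lemma case1 (ε : ℝ) (h0 : 0 < ε) (b J m : ℕ) (hb : 2 ≤ b) (hbJ : b + 1 ≤ J) :
    1 + (m : ℝ) / J ≤ ((b + 1 : ℕ) : ℝ) ^ m / (b : ℝ) ^ m ∧
    (((b + 1 : ℕ) : ℝ) ^ m) ^ (th ε J) ≤ (((b + 1 : ℕ) : ℝ) ^ m / (b : ℝ) ^ m) ^ (ε / 2) := by
  have hb0 : (0 : ℝ) < b := by exact_mod_cast (by omega : 0 < b)
  have hb2 : (2 : ℝ) ≤ b := by exact_mod_cast hb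
  have hJb : (b : ℝ) + 1 ≤ J := by exact_mod_cast hbJ
  have hJ0 : (0 : ℝ) < J := by linarith
  have e1 : ((b + 1 : ℕ) : ℝ) ^ m / (b : ℝ) ^ m = (1 + 1 / (b : ℝ)) ^ m := by
    rw [← div_pow]
    congr 1
    push_cast
    field_simp
  have hm0 : (0 : ℝ) ≤ m := Nat.cast_nonneg _
  constructor
  · rw [e1]
    have h2 := one_add_mul_le_pow (show (-2 : ℝ) ≤ 1 / (b : ℝ) by
      have : (0 : ℝ) < 1 / b := by positivity
      linarith) m
    refine le_trans ?_ h2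
    have h3 : (1 : ℝ) / J ≤ 1 / b := one_div_le_one_div_of_le hb0 (by linarith)
    have h4 : (m : ℝ) / J = m * (1 / J) := by ring
    rw [h4]
    have := mul_le_mul_of_nonneg_left h3 hm0
    linarith
  · rw [e1]
    have hp1 : (0 : ℝ) < ((b + 1 : ℕ) : ℝ) := by positivity
    have hp2 : (0 : ℝ) < 1 + 1 / (b : ℝ) := by positivity
    rw [← Real.rpow_natCast, ← Real.rpow_natCast, ← Real.rpow_mul hp1.le, ← Real.rpow_mul hp2.le,
      Real.rpow_def_of_pos hp1, Real.rpow_def_of_pos hp2]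
    apply Real.exp_le_exp.2
    have k1 : Real.log ((b + 1 : ℕ) : ℝ) ≤ J := by
      have := Real.log_le_sub_one_of_pos hp1
      push_cast at this ⊢
      linarith
    have k1' : 0 ≤ Real.log ((b + 1 : ℕ) : ℝ) := Real.log_nonneg (by push_cast; linarith)
    have k2 : 1 / (J : ℝ) ≤ Real.log (1 + 1 / (b : ℝ)) := by
      have h3 := Real.one_sub_inv_le_log_of_pos hp2
      refine le_trans ?_ h3
      have h4 : 1 - (1 + 1 / (b : ℝ))⁻¹ = 1 / ((b : ℝ) + 1) := by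
        field_simp
        ring
      rw [h4]
      exact one_div_le_one_div_of_le (by linarith) hJb
    unfold th
    calc Real.log ((b + 1 : ℕ) : ℝ) * (m * (ε / (4 * (J : ℝ) ^ 2)))
        ≤ J * (m * (ε / (4 * (J : ℝ) ^ 2))) := by gcongr
      _ = m * ε / (4 * J) := by field_simp
      _ ≤ m * ε / (2 * J) := by
          apply div_le_div_of_nonneg_left (by positivity) (by positivity)
          linarith
      _ = 1 / (J : ℝ) * (m * (ε / 2)) := by field_simp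
      _ ≤ Real.log (1 + 1 / (b : ℝ)) * (m * (ε / 2)) := by gcongr

lemma case2 (ε : ℝ) (h0 : 0 < ε) (b J J' m m' : ℕ) (hb : 2 ≤ b) (hbJ : b ≤ J) (hJ' : 2 ≤ J')
    (hm : (2 * J + 2) * m ≤ m') :
    1 + (m : ℝ) / J ≤ (2 : ℝ) ^ m' / (b : ℝ) ^ m ∧
    ((2 : ℝ) ^ m') ^ (th ε J') ≤ ((2 : ℝ) ^ m' / (b : ℝ) ^ m) ^ (ε / 2) := by
  have hb0 : (0 : ℝ) < b := by exact_mod_cast (by omega : 0 < b)
  have hb2 : (2 : ℝ) ≤ b := by exact_mod_cast hb
  have hJb : (b : ℝ) ≤ J := by exact_mod_cast hbJ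
  have hJ0 : (0 : ℝ) < J := by linarith
  have hJ2' : (2 : ℝ) ≤ J' := by exact_mod_cast hJ'
  have hm0 : (0 : ℝ) ≤ m := Nat.cast_nonneg _
  have hm' : (2 * (J : ℝ) + 2) * m ≤ m' := by exact_mod_cast hm
  have hbm : (0 : ℝ) < (b : ℝ) ^ m := by positivity
  constructor
  · rw [le_div_iff₀ hbm]
    have k1 : (b : ℝ) ≤ 2 ^ b := by exact_mod_cast (Nat.lt_two_pow_self (n := b)).le
    have k2 : 1 + (m : ℝ) / J ≤ 2 ^ m := by
      have h2 := one_add_mul_le_pow (show (-2 : ℝ) ≤ 1 by norm_num) m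
      have h3 : (m : ℝ) / J ≤ m * 1 := by
        rw [div_le_iff₀ hJ0]
        nlinarith
      norm_num at h2 h3
      linarith
    calc (1 + (m : ℝ) / J) * (b : ℝ) ^ m ≤ 2 ^ m * (2 ^ b) ^ m := by gcongr
      _ = 2 ^ (m + b * m) := by rw [pow_add, pow_mul]
      _ ≤ 2 ^ m' := by
          apply pow_le_pow_right₀ (by norm_num)
          have h5 : b * m ≤ J * m := Nat.mul_le_mul_right _ hbJ
          have h6 : (2 * J + 2) * m = J * m + J * m + m + m := by ring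
          have h7 : 0 ≤ J * m := Nat.zero_le _
          omega
  · have hp1 : (0 : ℝ) < (2 : ℝ) ^ m' := by positivity
    have hp2 : (0 : ℝ) < (2 : ℝ) ^ m' / (b : ℝ) ^ m := by positivity
    rw [Real.rpow_def_of_pos hp1, Real.rpow_def_of_pos hp2]
    apply Real.exp_le_exp.2
    rw [Real.log_div hp1.ne' hbm.ne', Real.log_pow, Real.log_pow]
    have k1 : Real.log b ≤ J := by
      have := Real.log_le_sub_one_of_pos hb0
      linarith
    have k2 : (1 / 2 : ℝ) ≤ Real.log 2 := by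
      have := Real.log_two_gt_d9
      linarith
    have k3 : th ε J' ≤ ε / 16 := by
      unfold th
      apply div_le_div_of_nonneg_left h0.le (by norm_num)
      nlinarith
    have k4 : (0 : ℝ) ≤ m' := Nat.cast_nonneg _
    have k5 : (m : ℝ) * Real.log b ≤ m' * Real.log 2 * (7 / 8) := by
      calc (m : ℝ) * Real.log b ≤ m * J := by gcongr
        _ ≤ ((2 * (J : ℝ) + 2) * m) * (1 / 2) := by nlinarith
        _ ≤ m' * (1 / 2) := by gcongr
        _ ≤ m' * Real.log 2 * (7 / 8) := by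
            have h8 : (4 / 7 : ℝ) ≤ Real.log 2 := by
              have := Real.log_two_gt_d9
              linarith
            have := mul_le_mul_of_nonneg_left h8 k4
            linarith
    have k6 : 0 ≤ (m' : ℝ) * Real.log 2 := by positivity
    calc (m' : ℝ) * Real.log 2 * th ε J' ≤ (m' : ℝ) * Real.log 2 * (ε / 16) := by gcongr
      _ = (m' : ℝ) * Real.log 2 * (1 / 8) * (ε / 2) := by ring
      _ ≤ ((m' : ℝ) * Real.log 2 - m * Real.log b) * (ε / 2) := by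
          apply mul_le_mul_of_nonneg_right _ (by linarith)
          linarith

lemma ratio_facts (ε : ℝ) (h0 : 0 < ε) (J m : ℕ → ℕ) (hJ : ∀ n, 2 ≤ J n) (k : ℕ)
    (H : (2 * J (sq J k).1 + 2) * m (sq J k).1 ≤ m ((sq J k).1 + 1)) :
    1 + (m (sq J k).1 : ℝ) / J (sq J k).1 ≤ XX J m (k + 1) / XX J m k ∧
    (XX J m (k + 1)) ^ (th ε (J (sq J (k + 1)).1)) ≤ (XX J m (k + 1) / XX J m k) ^ (ε / 2) := by
  obtain ⟨hb1, hb2, -⟩ := sq_bd J hJ k
  have hk : sq J k = ((sq J k).1, (sq J k).2) := rfl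
  generalize hn : (sq J k).1 = n at *
  generalize hb : (sq J k).2 = b at *
  by_cases h : b + 1 ≤ J n
  · have e1 : sq J (k + 1) = (n, b + 1) := by
      simp only [sq, nx, hk]
      rw [if_pos h]
    simp only [XX, e1, hk]
    exact case1 ε h0 b (J n) (m n) hb1 h
  · have e1 : sq J (k + 1) = (n + 1, 2) := by
      simp only [sq, nx, hk]
      rw [if_neg h]
    simp only [XX, e1, hk]
    have := case2 ε h0 b (J n) (J (n + 1)) (m n) (m (n + 1)) hb1 hb2 (hJ _) H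
    push_cast
    exact this

/-- the window property at the place `n` -/
def Win (ε : ℝ) (m J : ℕ → ℕ) (ψ : ℕ → ℝ) (n : ℕ) : Prop :=
  ∀ b : ℕ, 2 ≤ b → b ≤ J n → ∀ M : ℕ, ((b : ℝ) ^ (m n)) ^ (th ε (J n)) ≤ M →
    ∃ N : ℕ, M < N ∧ (N : ℝ) ≤ M + ((b : ℝ) ^ (m n)) ^ (th ε (J n)) ∧
      ∀ a d : ℕ, 1 ≤ a → a ≤ J n → 1 ≤ d → d ≤ J n → ∀ q : ℕ, q.Prime →
        ψ n * f ((b : ℝ) ^ (m n)) < |(q : ℝ) - a * (N : ℝ) ^ d|

theorem eb_core (ε : ℝ) (h0 : 0 < ε) (h1 : ε < 1) (m J : ℕ → ℕ) (ψ : ℕ → ℝ) (hJ : ∀ n, 2 ≤ J n)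
    (H1 : ∀ᶠ n in atTop, (2 * J n + 2) * m n ≤ m (n + 1))
    (H2 : Tendsto (fun n => (m n : ℝ) / (J n : ℝ)) atTop atTop)
    (H3 : ∀ᶠ n in atTop, Win ε m J ψ n) (u v : ℝ) (hu : 0 < u) (huv : u < v) :
    ENNReal.ofReal (1 - ε) ≤ dimH {α : ℝ | u < α ∧ α < v ∧ ∀ᶠ n in atTop,
      ∀ b : ℕ, 2 ≤ b → b ≤ J n → ∀ a d : ℕ, 1 ≤ a → a ≤ J n → 1 ≤ d → d ≤ J n →
        ∀ q : ℕ, q.Prime →
        ψ n * f ((b : ℝ) ^ (m n)) < |(q : ℝ) - a * (⌊α * (b : ℝ) ^ (m n)⌋₊ : ℝ) ^ d|} := by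
  have ht := sq_tend J hJ
  have hX := XX_pos J m hJ
  have ht1 : Tendsto (fun k => (sq J (k + 1)).1) atTop atTop := ht.comp (tendsto_add_atTop_nat 1)
  have hfac := ht.eventually H1
  have hR : Tendsto (fun k => XX J m (k + 1) / XX J m k) atTop atTop := by
    refine tendsto_atTop_mono' _ ?_ (H2.comp ht)
    filter_upwards [hfac] with k hk
    have := (ratio_facts ε h0 J m hJ k hk).1
    simp only [Function.comp]
    linarith
  have hmt : Tendsto (fun n => (m n : ℝ)) atTop atTop := by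
    refine tendsto_atTop_mono (fun n => ?_) H2
    have : (1 : ℝ) ≤ J n := by exact_mod_cast (by have := hJ n; omega : 1 ≤ J n)
    exact div_le_self (Nat.cast_nonneg _) this
  have hXt : Tendsto (fun k => XX J m (k + 1)) atTop atTop := by
    refine tendsto_atTop_mono (fun k => ?_) (hmt.comp ht1)
    simp only [Function.comp]
    have h2 := (sq_bd J hJ (k + 1)).1
    have h3 : (2 : ℝ) ≤ ((sq J (k + 1)).2 : ℝ) := by exact_mod_cast h2
    have h4 : ((m (sq J (k + 1)).1 : ℕ) : ℝ) ≤ 2 ^ (m (sq J (k + 1)).1) := by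
      exact_mod_cast (Nat.lt_two_pow_self (n := m (sq J (k + 1)).1)).le
    calc ((m (sq J (k + 1)).1 : ℕ) : ℝ) ≤ 2 ^ (m (sq J (k + 1)).1) := h4
      _ ≤ ((sq J (k + 1)).2 : ℝ) ^ (m (sq J (k + 1)).1) := by gcongr
  set G : ℕ → Set ℝ := fun k => {y | ∀ a d : ℕ, 1 ≤ a → a ≤ J (sq J (k + 1)).1 → 1 ≤ d →
    d ≤ J (sq J (k + 1)).1 → ∀ q : ℕ, q.Prime →
      ψ (sq J (k + 1)).1 * f (XX J m (k + 1)) < |(q : ℝ) - a * (⌊y⌋₊ : ℝ) ^ d|} with hG
  have key := dil_gen ε h0 h1 (XX J m) hX hR G u v hu huv ?_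
  · refine key.trans (dimH_mono ?_)
    rintro α ⟨hα1, hα2, hα3⟩
    refine ⟨hα1, hα2, ?_⟩
    obtain ⟨K, hK⟩ := eventually_atTop.1 hα3
    filter_upwards [eventually_ge_atTop (K + 1)] with n hn b hb hbJ
    obtain ⟨k0, hk0⟩ := sq_pair J hJ n b hb hbJ
    have h5 := (sq_bd J hJ k0).2.2
    rw [hk0] at h5
    simp only at h5
    obtain ⟨k, rfl⟩ : ∃ k, k0 = k + 1 := ⟨k0 - 1, by omega⟩
    have h6 := hK k (by omega)
    simp only [hG, mem_setOf_eq, XX, hk0] at h6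
    exact h6
  · have hε : ∀ᶠ R : ℝ in atTop, 3 / 2 ≤ R ^ (ε / 2) :=
      (tendsto_rpow_atTop (by positivity)).eventually_ge_atTop _
    have hx2 : ∀ᶠ y : ℝ in atTop, 1 / u ≤ y ^ (1 / 2 : ℝ) ∧ 1 ≤ y :=
      ((tendsto_rpow_atTop (by norm_num)).eventually_ge_atTop _).and (eventually_ge_atTop 1)
    filter_upwards [hfac, hR.eventually hε, ht1.eventually H3, hXt.eventually hx2] with k hk1 hk2 hk3 hk4
    intro w hw
    have hrf := (ratio_facts ε h0 J m hJ k hk1).2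
    have hX1 := hX (k + 1)
    set n := (sq J (k + 1)).1 with hn
    set Y : ℝ := (XX J m (k + 1)) ^ (th ε (J n)) with hY
    obtain ⟨hb1, hb2, -⟩ := sq_bd J hJ (k + 1)
    have hth : th ε (J n) ≤ 1 / 2 := by
      have h2 : (2 : ℝ) ≤ J n := by exact_mod_cast hJ n
      unfold th
      rw [div_le_iff₀ (by positivity)]
      nlinarith
    have hYu : Y ≤ u * XX J m (k + 1) := by
      calc Y ≤ (XX J m (k + 1)) ^ (1 / 2 : ℝ) := Real.rpow_le_rpow_of_exponent_le hk4.2 hth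
        _ ≤ u * ((XX J m (k + 1)) ^ (1 / 2 : ℝ) * (XX J m (k + 1)) ^ (1 / 2 : ℝ)) := by
            have h3 := hk4.1
            rw [div_le_iff₀ hu] at h3
            have h4 : 0 < (XX J m (k + 1)) ^ (1 / 2 : ℝ) := Real.rpow_pos_of_pos hX1 _
            nlinarith
        _ = u * XX J m (k + 1) := by
            rw [← Real.rpow_add hX1]
            norm_num
    have hw0 : 0 < w := lt_of_lt_of_le (mul_pos hu hX1) hw
    obtain ⟨N, hN1, hN2, hN3⟩ := hk3 (sq J (k + 1)).2 hb1 hb2 ⌈w⌉₊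
      ((hYu.trans hw).trans (Nat.le_ceil w))
    have hcw : (⌈w⌉₊ : ℝ) < w + 1 := Nat.ceil_lt_add_one hw0.le
    have hN1' : (⌈w⌉₊ : ℝ) < N := by exact_mod_cast hN1
    have hcw' := Nat.le_ceil w
    refine ⟨N, by linarith, ?_, ?_⟩
    · have hYe : (((sq J (k + 1)).2 : ℝ) ^ m n) ^ th ε (J n) = Y := rfl
      rw [hYe] at hN2
      linarith
    · intro y hy
      have hfl : ⌊y⌋₊ = N := by
        rw [Nat.floor_eq_iff ((Nat.cast_nonneg N).trans hy.1)]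
        exact ⟨hy.1, by linarith [hy.2]⟩
      simp only [hG, mem_setOf_eq, hfl]
      exact hN3

end Pool.Agent.Q273.CH
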