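import Mathlib
import Pool.Agent.Q273.CH.EB
import Pool.Agent.W154.PV.Main

/-!
# All bases and all monomials
-/

set_option autoImplicit false

namespace Pool.Agent.Q273.CH

open Set Filter Topology MeasureTheory
open scoped ENNReal NNReal

lemma th_pos {ε : ℝ} (h0 : 0 < ε) {J : ℕ} (hJ : 2 ≤ J) : 0 < th ε J := by
  have h2 : (2 : ℝ) ≤ J := by exact_mod_cast hJ
  unfold th
  positivity

lemma th_le {ε : ℝ} (h0 : 0 < ε) (h1 : ε < 1) {J : ℕ} (hJ : 2 ≤ J) : th ε J ≤ 1 := by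
  have h2 : (2 : ℝ) ≤ J := by exact_mod_cast hJ
  unfold th
  rw [div_le_iff₀ (by positivity)]
  nlinarith

/-- the windows of the monomials -/
lemma win_of {ε : ℝ} (h0 : 0 < ε) (h1 : ε < 1) {J : ℕ} (hJ : 2 ≤ J) : ∃ c : ℝ, 0 < c ∧
    ∀ᶠ x : ℝ in atTop, 0 ≤ f x ∧ ∀ M : ℕ, x ^ (th ε J) ≤ M →
      ∃ N : ℕ, M < N ∧ (N : ℝ) ≤ M + x ^ (th ε J) ∧
      ∀ a d : ℕ, 1 ≤ a → a ≤ J → 1 ≤ d → d ≤ J → ∀ q : ℕ, q.Prime →
        c * f x < |(q : ℝ) - a * (N : ℝ) ^ d| := by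
  obtain ⟨c, hc, Y0, h⟩ := Pool.Agent.W154.PV.pow_main J (by omega)
  have ht := th_pos h0 hJ
  refine ⟨c * (th ε J / 8), by positivity, ?_⟩
  filter_upwards [f_rpow ht (th_le h0 h1 hJ), (tendsto_rpow_atTop ht).eventually_ge_atTop Y0,
    eventually_ge_atTop (1 : ℝ)] with x hx1 hx2 hx3
  refine ⟨(Real.log_nonneg hx3).trans hx1.2, fun M hM => ?_⟩
  obtain ⟨N, hN1, hN2, hN3⟩ := h (x ^ (th ε J)) hx2 M hM
  refine ⟨N, hN1, hN2, fun a d ha haJ hd hdJ q hq => ?_⟩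
  refine lt_of_le_of_lt ?_ (hN3 a d ha haJ hd hdJ q hq)
  rw [mul_assoc]
  exact mul_le_mul_of_nonneg_left hx1.1 hc.le

lemma grow (m : ℕ → ℕ) (hm : ∀ n, 1 ≤ m n) (C : ℕ) (hC : 6 ≤ C) (H1 : ∀ᶠ n in atTop, C * m n ≤ m (n + 1)) :
    Tendsto (fun n => (m n : ℝ)) atTop atTop := by
  obtain ⟨N, hN⟩ := eventually_atTop.1 H1
  have h2 : ∀ k, k + 1 ≤ m (N + k) := by
    intro k
    induction k with
    | zero => simpa using hm N
    | succ k ih =>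
      have h3 := hN (N + k) (by omega)
      have h4 : 6 * m (N + k) ≤ C * m (N + k) := Nat.mul_le_mul_right _ hC
      rw [← add_assoc]
      omega
  apply tendsto_natCast_atTop_atTop.comp
  rw [tendsto_atTop]
  intro B
  filter_upwards [eventually_ge_atTop (N + B)] with n hn
  obtain ⟨k, rfl⟩ := Nat.exists_eq_add_of_le (show N ≤ n by omega)
  have := h2 k
  omega

/-- **finitely many bases and monomials, with a constant** -/
theorem eb_const (J : ℕ) (hJ : 2 ≤ J) (ε : ℝ) (h0 : 0 < ε) (h1 : ε < 1) : ∃ c : ℝ, 0 < c ∧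
    ∀ m : ℕ → ℕ, (∀ n, 1 ≤ m n) → (∀ᶠ n in atTop, (2 * J + 2) * m n ≤ m (n + 1)) →
    ∀ u v : ℝ, 0 < u → u < v → ENNReal.ofReal (1 - ε) ≤
      dimH {α : ℝ | u < α ∧ α < v ∧ ∀ᶠ n in atTop,
        ∀ b : ℕ, 2 ≤ b → b ≤ J → ∀ a d : ℕ, 1 ≤ a → a ≤ J → 1 ≤ d → d ≤ J →
          Far (c * f ((b : ℝ) ^ (m n))) (a * (⌊α * (b : ℝ) ^ (m n)⌋₊ : ℝ) ^ d)} := by
  obtain ⟨c, hc, hw⟩ := win_of h0 h1 hJ
  refine ⟨c, hc, fun m hm hr u v hu huv => ?_⟩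
  have hmt := grow m hm (2 * J + 2) (by omega) hr
  have key := eb_core ε h0 h1 m (fun _ => J) (fun _ => c) (fun _ => hJ) hr ?_ ?_ u v hu huv
  · refine key.trans (dimH_mono ?_)
    rintro α ⟨h2, h3, h4⟩
    refine ⟨h2, h3, ?_⟩
    filter_upwards [h4] with n h5 b hb hbJ a d ha haJ hd hdJ q hq
    exact h5 b hb hbJ a d ha haJ hd hdJ q hq
  · exact hmt.atTop_div_const (by exact_mod_cast (by omega : 0 < J))
  · have h2t : Tendsto (fun n => (2 : ℝ) ^ (m n)) atTop atTop :=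
      (tendsto_pow_atTop_atTop_of_one_lt (by norm_num)).comp
        (tendsto_natCast_atTop_iff.1 hmt)
    obtain ⟨X0, hX0⟩ := eventually_atTop.1 hw
    filter_upwards [h2t.eventually_ge_atTop X0] with n hn b hb hbJ M hM
    have hbn : X0 ≤ (b : ℝ) ^ (m n) := by
      have : (2 : ℝ) ≤ b := by exact_mod_cast hb
      exact hn.trans (by gcongr)
    obtain ⟨N, hN1, hN2, hN3⟩ := (hX0 _ hbn).2 M hM
    exact ⟨N, hN1, hN2, hN3⟩

/-- **all bases and all monomials** -/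
theorem eb_all (m : ℕ → ℕ) (hm : ∀ n, 1 ≤ m n)
    (hr : Tendsto (fun n => (m (n + 1) : ℝ) / m n) atTop atTop) (ψ : ℕ → ℝ)
    (hψ : Tendsto ψ atTop (𝓝 0)) (ε : ℝ) (h0 : 0 < ε) (h1 : ε < 1) (u v : ℝ) (hu : 0 < u)
    (huv : u < v) : ENNReal.ofReal (1 - ε) ≤
      dimH {α : ℝ | u < α ∧ α < v ∧ ∀ b : ℕ, 2 ≤ b → ∀ J : ℕ, ∀ᶠ n in atTop,
        ∀ a d : ℕ, 1 ≤ a → a ≤ J → 1 ≤ d → d ≤ J →
          Far (ψ n * f ((b : ℝ) ^ (m n))) (a * (⌊α * (b : ℝ) ^ (m n)⌋₊ : ℝ) ^ d)} := by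
  have hr6 : ∀ C : ℕ, ∀ᶠ n in atTop, C * m n ≤ m (n + 1) := by
    intro C
    filter_upwards [hr.eventually_ge_atTop (C : ℝ)] with n hn
    rw [le_div_iff₀ (by exact_mod_cast hm n)] at hn
    exact_mod_cast hn
  have hmt := grow m hm 6 le_rfl (hr6 6)
  have h2t : Tendsto (fun n => (2 : ℝ) ^ (m n)) atTop atTop :=
    (tendsto_pow_atTop_atTop_of_one_lt (by norm_num)).comp (tendsto_natCast_atTop_iff.1 hmt)
  obtain ⟨J, hJt, hJP⟩ := diag_choice (fun j n => (2 * j + 2) * m n ≤ m (n + 1) ∧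
      ((j : ℝ) ^ 2 ≤ m n) ∧ ∀ b : ℕ, 2 ≤ b → b ≤ j → ∀ M : ℕ, ((b : ℝ) ^ (m n)) ^ (th ε j) ≤ M →
    ∃ N : ℕ, M < N ∧ (N : ℝ) ≤ M + ((b : ℝ) ^ (m n)) ^ (th ε j) ∧
      ∀ a d : ℕ, 1 ≤ a → a ≤ j → 1 ≤ d → d ≤ j → ∀ q : ℕ, q.Prime →
        ψ n * f ((b : ℝ) ^ (m n)) < |(q : ℝ) - a * (N : ℝ) ^ d|) (by
    intro j
    by_cases hj : 2 ≤ j
    · obtain ⟨c, hc, hw⟩ := win_of h0 h1 hj
      obtain ⟨X0, hX0⟩ := eventually_atTop.1 hw
      filter_upwards [hr6 (2 * j + 2), hmt.eventually_ge_atTop ((j : ℝ) ^ 2),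
        h2t.eventually_ge_atTop X0, hψ.eventually_le_const hc] with n hn1 hn2 hn3 hn4
      refine ⟨hn1, hn2, fun b hb hbj M hM => ?_⟩
      have hbn : X0 ≤ (b : ℝ) ^ (m n) := by
        have : (2 : ℝ) ≤ b := by exact_mod_cast hb
        exact hn3.trans (by gcongr)
      obtain ⟨N, hN1, hN2, hN3⟩ := (hX0 _ hbn).2 M hM
      refine ⟨N, hN1, hN2, fun a d ha haj hd hdj q hq => ?_⟩
      exact lt_of_le_of_lt (mul_le_mul_of_nonneg_right hn4 (hX0 _ hbn).1)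
        (hN3 a d ha haj hd hdj q hq)
    · filter_upwards [hr6 (2 * j + 2), hmt.eventually_ge_atTop ((j : ℝ) ^ 2)] with n hn1 hn2
      exact ⟨hn1, hn2, fun b hb hbj => absurd (hb.trans hbj) hj⟩)
  have hJe : ∀ᶠ n in atTop, max 2 (J n) = J n := by
    filter_upwards [hJt.eventually_ge_atTop 2] with n hn
    exact max_eq_right hn
  have key := eb_core ε h0 h1 m (fun n => max 2 (J n)) ψ (fun n => le_max_left _ _) ?_ ?_ ?_ u v hu huv
  · refine key.trans (dimH_mono ?_)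
    rintro α ⟨h2, h3, h4⟩
    refine ⟨h2, h3, fun b hb J0 => ?_⟩
    filter_upwards [h4, hJt.eventually_ge_atTop (max b J0)] with n h5 h6 a d ha haJ hd hdJ q hq
    have h7 : b ≤ J n := (le_max_left _ _).trans h6
    have h8 : J0 ≤ J n := (le_max_right _ _).trans h6
    exact h5 b hb (h7.trans (le_max_right _ _)) a d ha (haJ.trans (h8.trans (le_max_right _ _))) hd
      (hdJ.trans (h8.trans (le_max_right _ _))) q hq
  · filter_upwards [hJe, hJP] with n h5 h6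
    rw [h5]
    exact h6.1
  · refine tendsto_atTop_mono' _ ?_ (tendsto_natCast_atTop_atTop.comp hJt)
    filter_upwards [hJe, hJP, hJt.eventually_ge_atTop 1] with n h5 h6 h7
    rw [h5]
    simp only [Function.comp]
    have h8 : (0 : ℝ) < J n := by exact_mod_cast h7
    rw [le_div_iff₀ h8]
    have := h6.2.1
    nlinarith
  · filter_upwards [hJe, hJP] with n h5 h6
    simp only [Win, h5]
    exact h6.2.2

/-- **all bases and all monomials: dimension one** -/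
theorem eb_one (m : ℕ → ℕ) (hm : ∀ n, 1 ≤ m n)
    (hr : Tendsto (fun n => (m (n + 1) : ℝ) / m n) atTop atTop) (ψ : ℕ → ℝ)
    (hψ : Tendsto ψ atTop (𝓝 0)) (u v : ℝ) (hu : 0 < u) (huv : u < v) :
      dimH {α : ℝ | u < α ∧ α < v ∧ ∀ b : ℕ, 2 ≤ b → ∀ J : ℕ, ∀ᶠ n in atTop,
        ∀ a d : ℕ, 1 ≤ a → a ≤ J → 1 ≤ d → d ≤ J →
          Far (ψ n * f ((b : ℝ) ^ (m n))) (a * (⌊α * (b : ℝ) ^ (m n)⌋₊ : ℝ) ^ d)} = 1 := by
  apply le_antisymm
  · calc dimH _ ≤ dimH (univ : Set ℝ) := dimH_mono (subset_univ _)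
      _ = 1 := Real.dimH_univ
  · refine le_of_forall_lt fun s hs => ?_
    have hs1 : s ≠ ∞ := (hs.trans ENNReal.one_lt_top).ne
    lift s to ℝ≥0 using hs1
    have hs2 : (s : ℝ) < 1 := by exact_mod_cast hs
    have h2 : (0 : ℝ) ≤ s := s.2
    refine lt_of_lt_of_le ?_ (eb_all m hm hr ψ hψ ((1 - s) / 2) (by linarith) (by linarith) u v hu huv)
    rw [ENNReal.lt_ofReal_iff_toReal_lt ENNReal.coe_ne_top, ENNReal.coe_toReal]
    linarith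

end Pool.Agent.Q273.CH
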