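import Mathlib

/-!
# Cantor trees with sparse exceptional windows: the combinatorial part
-/

set_option autoImplicit false

namespace Pool.Agent.Q273.CH

open Set Filter Topology

open Classical in
/-- number of elements of `A` in `(N, N + H]` -/
noncomputable def wcnt (A : ℕ → Prop) (N H : ℕ) : ℕ := ((Finset.Ioc N (N + H)).filter A).card

/-- the data of a tree: scales, ratio, windows, thresholds, allowed integers -/
structure Dat where
  /-- bound for the positions -/
  X : ℕ → ℕ
  /-- length of the windows -/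
  H : ℕ → ℕ
  /-- ratio of consecutive scales -/
  q : ℕ → ℝ
  /-- number of elements of a good window -/
  G : ℕ → ℝ
  /-- allowed integers -/
  P : ℕ → ℕ → Prop

open Classical in
/-- the positions of the windows in the range of the node `m` -/
noncomputable def Dat.Rg (D : Dat) (k m : ℕ) : Finset ℕ :=
  (Finset.Icc 1 (D.X (k + 1))).filter fun N =>
    (m : ℝ) * D.q k ≤ N ∧ (N : ℝ) + D.H (k + 1) + 1 ≤ ((m : ℝ) + 1 / 2) * D.q k

open Classical in
/-- the nodes which do not survive `j` steps -/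
noncomputable def Dat.NS (D : Dat) : ℕ → ℕ → Set ℕ
  | 0, _ => ∅
  | j + 1, k => {m | (((D.Rg k m).filter fun N =>
      D.G (k + 1) / 2 ≤ wcnt (fun n => D.P (k + 1) n ∧ n ∉ D.NS j (k + 1)) N (D.H (k + 1))).card : ℝ) <
        D.q k / 8}

lemma wcnt_mono {A B : ℕ → Prop} (h : ∀ n, A n → B n) (N H : ℕ) : wcnt A N H ≤ wcnt B N H := by
  classical
  apply Finset.card_le_card
  intro n hn
  rw [Finset.mem_filter] at hn ⊢
  exact ⟨hn.1, h n hn.2⟩

lemma Dat.NS_mono (D : Dat) (j : ℕ) : ∀ k, D.NS j k ⊆ D.NS (j + 1) k := by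
  classical
  induction j with
  | zero => intro k m hm; simp [Dat.NS] at hm
  | succ j ih =>
    intro k m hm
    simp only [Dat.NS, mem_ofPred_eq] at hm ⊢
    refine lt_of_le_of_lt ?_ hm
    have hsub : ((D.Rg k m).filter fun N => D.G (k + 1) / 2 ≤
        wcnt (fun n => D.P (k + 1) n ∧ n ∉ D.NS (j + 1) (k + 1)) N (D.H (k + 1))) ⊆
        ((D.Rg k m).filter fun N => D.G (k + 1) / 2 ≤
        wcnt (fun n => D.P (k + 1) n ∧ n ∉ D.NS j (k + 1)) N (D.H (k + 1))) := by
      intro N hN
      rw [Finset.mem_filter] at hN ⊢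
      refine ⟨hN.1, hN.2.trans ?_⟩
      have h3 : wcnt (fun n => D.P (k + 1) n ∧ n ∉ D.NS (j + 1) (k + 1)) N (D.H (k + 1)) ≤
          wcnt (fun n => D.P (k + 1) n ∧ n ∉ D.NS j (k + 1)) N (D.H (k + 1)) :=
        wcnt_mono (fun n hn => ⟨hn.1, fun h => hn.2 (ih (k + 1) h)⟩) _ _
      exact_mod_cast h3
    exact_mod_cast Finset.card_le_card hsub

lemma Dat.NS_mono' (D : Dat) {i j : ℕ} (h : i ≤ j) (k : ℕ) : D.NS i k ⊆ D.NS j k := by
  induction j, h using Nat.le_induction with
  | base => exact le_refl _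
  | succ j _ ih => exact ih.trans (D.NS_mono j k)

/-- the surviving nodes -/
def Dat.Sv (D : Dat) (k : ℕ) : Set ℕ := {m | ∀ j, m ∉ D.NS j k}

/-- a uniform depth for a finite set -/
lemma Dat.depth (D : Dat) (k : ℕ) (F : Finset ℕ) : ∃ J, ∀ n ∈ F, n ∉ D.NS J k → n ∈ D.Sv k := by
  classical
  induction F using Finset.induction_on with
  | empty => exact ⟨0, by simp⟩
  | insert a F _ ih =>
    obtain ⟨J, hJ⟩ := ih
    by_cases ha : a ∈ D.Sv k
    · refine ⟨J, fun n hn hn2 => ?_⟩
      rcases Finset.mem_insert.1 hn with rfl | hn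
      · exact ha
      · exact hJ n hn hn2
    · have : ∃ j, a ∈ D.NS j k := by
        by_contra hne
        push Not at hne
        exact ha hne
      obtain ⟨j, hj⟩ := this
      refine ⟨max J j, fun n hn hn2 => ?_⟩
      rcases Finset.mem_insert.1 hn with rfl | hn
      · exact absurd (D.NS_mono' (le_max_right J j) k hj) hn2
      · exact hJ n hn (fun h => hn2 (D.NS_mono' (le_max_left J j) k h))

open Classical in
/-- a surviving node has many good windows -/
lemma Dat.Sv_step (D : Dat) (k m : ℕ) (hm : m ∈ D.Sv k) :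
    D.q k / 8 ≤ (((D.Rg k m).filter fun N =>
      D.G (k + 1) / 2 ≤ wcnt (fun n => D.P (k + 1) n ∧ n ∈ D.Sv (k + 1)) N (D.H (k + 1))).card : ℝ) := by
  obtain ⟨J, hJ⟩ := D.depth (k + 1) (Finset.range (D.X (k + 1) + D.H (k + 1) + 1))
  have h1 : ¬ m ∈ D.NS (J + 1) k := hm (J + 1)
  simp only [Dat.NS, mem_ofPred_eq, not_lt] at h1
  refine h1.trans ?_
  have hsub : ((D.Rg k m).filter fun N => D.G (k + 1) / 2 ≤
        wcnt (fun n => D.P (k + 1) n ∧ n ∉ D.NS J (k + 1)) N (D.H (k + 1))) ⊆
        ((D.Rg k m).filter fun N => D.G (k + 1) / 2 ≤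
        wcnt (fun n => D.P (k + 1) n ∧ n ∈ D.Sv (k + 1)) N (D.H (k + 1))) := by
    intro N hN
    rw [Finset.mem_filter] at hN ⊢
    refine ⟨hN.1, hN.2.trans ?_⟩
    have hNX : N ≤ D.X (k + 1) := by
      have := hN.1
      simp only [Dat.Rg, Finset.mem_filter, Finset.mem_Icc] at this
      exact this.1.2
    have : wcnt (fun n => D.P (k + 1) n ∧ n ∉ D.NS J (k + 1)) N (D.H (k + 1)) ≤
        wcnt (fun n => D.P (k + 1) n ∧ n ∈ D.Sv (k + 1)) N (D.H (k + 1)) := by
      apply Finset.card_le_card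
      intro n hn
      simp only [Finset.mem_filter, Finset.mem_Ioc] at hn ⊢
      exact ⟨hn.1, hn.2.1, hJ n (Finset.mem_range.2 (by omega)) hn.2.2⟩
    exact_mod_cast this
  exact_mod_cast Finset.card_le_card hsub

open Classical in
/-- admissible nodes of the level `k` in `[u, v]`, which do not survive -/
noncomputable def Dat.BN (D : Dat) (x : ℕ → ℝ) (u v : ℝ) (j k : ℕ) : Finset ℕ :=
  (Finset.range (D.X k + 1)).filter fun m => u * x k ≤ m ∧ (m : ℝ) + 1 ≤ v * x k ∧ m ∈ D.NS j k

/-- double counting -/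
lemma double_count (E A : Finset ℕ) (H : ℕ) (g : ℝ)
    (h : ∀ N ∈ A, g ≤ ((((Finset.Ioc N (N + H)) ∩ E).card : ℕ) : ℝ)) :
    (A.card : ℝ) * g ≤ H * E.card := by
  classical
  have h1 : (A.card : ℝ) * g ≤ ∑ N ∈ A, ((((Finset.Ioc N (N + H)) ∩ E).card : ℕ) : ℝ) := by
    rw [← nsmul_eq_mul, ← Finset.sum_const]
    exact Finset.sum_le_sum h
  refine h1.trans ?_
  have h2 : ∑ N ∈ A, ((Finset.Ioc N (N + H)) ∩ E).card ≤ H * E.card := by
    have h3 : ∀ N ∈ A, ((Finset.Ioc N (N + H)) ∩ E).card =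
        (E.filter fun n => N < n ∧ n ≤ N + H).card := by
      intro N _
      congr 1
      ext n
      simp only [Finset.mem_inter, Finset.mem_Ioc, Finset.mem_filter]
      tauto
    rw [Finset.sum_congr rfl h3, mul_comm, ← smul_eq_mul, ← Finset.sum_const]
    simp only [Finset.card_filter]
    rw [Finset.sum_comm]
    apply Finset.sum_le_sum
    intro n _
    rw [← Finset.card_filter]
    calc (A.filter fun N => N < n ∧ n ≤ N + H).card ≤ (Finset.Ico (n - H) n).card := by
          apply Finset.card_le_card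
          intro N hN
          simp only [Finset.mem_filter, Finset.mem_Ico] at hN ⊢
          omega
      _ ≤ H := by simp; omega
  exact_mod_cast h2

end Pool.Agent.Q273.CH
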