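import Mathlib
import Pool.Agent.Q273.CH.Exc1

/-!
# Cantor trees with sparse exceptional windows: few nodes do not survive
-/

set_option autoImplicit false

namespace Pool.Agent.Q273.CH

open Set Filter Topology

open Classical in
lemma card_range_ge (X : ℕ) (a b c : ℝ) (ha : 1 ≤ a) (hb : b ≤ X) (hc : 0 ≤ c) :
    b - a - c - 1 ≤ (((Finset.Icc 1 X).filter fun N : ℕ => a ≤ N ∧ (N : ℝ) + c ≤ b).card : ℝ) := by
  by_cases hbc : b - c < 0
  · have : (0 : ℝ) ≤ (((Finset.Icc 1 X).filter fun N : ℕ => a ≤ N ∧ (N : ℝ) + c ≤ b).card : ℝ) :=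
      Nat.cast_nonneg _
    linarith
  push Not at hbc
  have hsub : Finset.Icc ⌈a⌉₊ ⌊b - c⌋₊ ⊆ (Finset.Icc 1 X).filter fun N : ℕ => a ≤ N ∧ (N : ℝ) + c ≤ b := by
    intro N hN
    rw [Finset.mem_Icc] at hN
    have h1 : a ≤ N := Nat.ceil_le.1 hN.1
    have h2 : (N : ℝ) ≤ b - c := (Nat.le_floor_iff hbc).1 hN.2
    rw [Finset.mem_filter, Finset.mem_Icc]
    refine ⟨⟨?_, ?_⟩, h1, by linarith⟩
    · have : (1 : ℝ) ≤ N := by linarith
      exact_mod_cast this
    · have : (N : ℝ) ≤ X := by linarith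
      exact_mod_cast this
  have h3 := Finset.card_le_card hsub
  rw [Nat.card_Icc] at h3
  have h4 : (⌊b - c⌋₊ : ℝ) + 1 - ⌈a⌉₊ ≤ ((⌊b - c⌋₊ + 1 - ⌈a⌉₊ : ℕ) : ℝ) := by
    rw [sub_le_iff_le_add]
    exact_mod_cast (by omega : ⌊b - c⌋₊ + 1 ≤ (⌊b - c⌋₊ + 1 - ⌈a⌉₊) + ⌈a⌉₊)
  have h5 : b - c < ⌊b - c⌋₊ + 1 := Nat.lt_floor_add_one _
  have h6 : (⌈a⌉₊ : ℝ) < a + 1 := Nat.ceil_lt_add_one (by linarith)
  have h7 : ((⌊b - c⌋₊ + 1 - ⌈a⌉₊ : ℕ) : ℝ) ≤
      (((Finset.Icc 1 X).filter fun N : ℕ => a ≤ N ∧ (N : ℝ) + c ≤ b).card : ℝ) := by exact_mod_cast h3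
  linarith

open Classical in
/-- the bad windows of a level -/
noncomputable def Dat.BW (D : Dat) (x : ℕ → ℝ) (u v : ℝ) (j k : ℕ) : Finset ℕ :=
  (Finset.Icc 1 (D.X k)).filter fun N => u * x k ≤ N ∧ (N : ℝ) + D.H k + 1 ≤ v * x k ∧
    ¬ (D.G k / 2 ≤ wcnt (fun n => D.P k n ∧ n ∉ D.NS j k) N (D.H k))

open Classical in
lemma Dat.BW_le (D : Dat) (x : ℕ → ℝ) (u v : ℝ) (j k : ℕ) (E : ℝ)
    (hX : v * x k ≤ D.X k)
    (hE : (((Finset.Icc 1 (D.X k)).filter fun N => (wcnt (D.P k) N (D.H k) : ℝ) < D.G k).card : ℝ) ≤ E)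
    (hG : 0 < D.G k) : ((D.BW x u v j k).card : ℝ) ≤ E + 2 * D.H k / D.G k * (D.BN x u v j k).card := by
  set A1 := (Finset.Icc 1 (D.X k)).filter fun N => (wcnt (D.P k) N (D.H k) : ℝ) < D.G k with hA1
  set A2 := (D.BW x u v j k).filter fun N => ¬ ((wcnt (D.P k) N (D.H k) : ℝ) < D.G k) with hA2
  have hsub : D.BW x u v j k ⊆ A1 ∪ A2 := by
    intro N hN
    rw [Finset.mem_union]
    by_cases h : (wcnt (D.P k) N (D.H k) : ℝ) < D.G k
    · left
      rw [hA1, Finset.mem_filter]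
      refine ⟨?_, h⟩
      simp only [Dat.BW, Finset.mem_filter] at hN
      exact hN.1
    · right
      rw [hA2, Finset.mem_filter]
      exact ⟨hN, h⟩
  have h1 : ((D.BW x u v j k).card : ℝ) ≤ A1.card + A2.card := by
    exact_mod_cast (Finset.card_le_card hsub).trans (Finset.card_union_le _ _)
  have h2 : (A2.card : ℝ) * (D.G k / 2) ≤ D.H k * (D.BN x u v j k).card := by
    apply double_count
    intro N hN
    rw [hA2, Finset.mem_filter] at hN
    obtain ⟨hN1, hN2⟩ := hN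
    simp only [Dat.BW, Finset.mem_filter, Finset.mem_Icc] at hN1
    obtain ⟨hN3, hN4, hN5, hN6⟩ := hN1
    push Not at hN2 hN6
    have h3 : wcnt (D.P k) N (D.H k) ≤ wcnt (fun n => D.P k n ∧ n ∉ D.NS j k) N (D.H k) +
        (Finset.Ioc N (N + D.H k) ∩ D.BN x u v j k).card := by
      unfold wcnt
      refine le_trans (Finset.card_le_card ?_) (Finset.card_union_le _ _)
      intro n hn
      simp only [Finset.mem_filter, Finset.mem_Ioc] at hn
      rw [Finset.mem_union]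
      by_cases hns : n ∈ D.NS j k
      · right
        have hn1 : (N : ℝ) < n := by exact_mod_cast hn.1.1
        have hn2 : (n : ℝ) ≤ N + D.H k := by exact_mod_cast hn.1.2
        simp only [Finset.mem_inter, Finset.mem_Ioc, Dat.BN, Finset.mem_filter, Finset.mem_range]
        refine ⟨hn.1, ?_, by linarith, by linarith, hns⟩
        have : (n : ℝ) < D.X k + 1 := by linarith
        exact_mod_cast this
      · left
        simp only [Finset.mem_filter, Finset.mem_Ioc]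
        exact ⟨hn.1, hn.2, hns⟩
    have h4 : (wcnt (D.P k) N (D.H k) : ℝ) ≤ wcnt (fun n => D.P k n ∧ n ∉ D.NS j k) N (D.H k) +
        (Finset.Ioc N (N + D.H k) ∩ D.BN x u v j k).card := by exact_mod_cast h3
    linarith
  have h5 : (A2.card : ℝ) ≤ 2 * D.H k / D.G k * (D.BN x u v j k).card := by
    have h6 : (A2.card : ℝ) ≤ D.H k * (D.BN x u v j k).card / (D.G k / 2) := by
      rw [le_div_iff₀ (by positivity)]
      exact h2
    refine h6.trans (le_of_eq ?_)
    generalize ((D.BN x u v j k).card : ℝ) = z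
    field_simp
  linarith

open Classical in
/-- few nodes do not survive -/
theorem Dat.BN_le (D : Dat) (x : ℕ → ℝ) (u v : ℝ) (k0 : ℕ) (B E : ℕ → ℝ)
    (hx : ∀ k, 0 < x k) (hq : ∀ k, D.q k = x (k + 1) / x k)
    (hH : ∀ k ≥ k0, (D.H (k + 1) : ℝ) + 2 ≤ D.q k / 4)
    (hX : ∀ k ≥ k0, v * x (k + 1) ≤ D.X (k + 1)) (hu : ∀ k ≥ k0, 1 ≤ u * x (k + 1))
    (hE : ∀ k ≥ k0, (((Finset.Icc 1 (D.X (k + 1))).filter fun N =>
      (wcnt (D.P (k + 1)) N (D.H (k + 1)) : ℝ) < D.G (k + 1)).card : ℝ) ≤ E (k + 1))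
    (hG : ∀ k ≥ k0, 0 < D.G (k + 1)) (hB0 : ∀ k, 0 ≤ B k)
    (hB : ∀ k ≥ k0, 8 / D.q k * (E (k + 1) + 2 * D.H (k + 1) / D.G (k + 1) * B (k + 1)) ≤ B k)
    (j : ℕ) : ∀ k ≥ k0, ((D.BN x u v j k).card : ℝ) ≤ B k := by
  induction j with
  | zero =>
    intro k _
    have : D.BN x u v 0 k = ∅ := by
      ext m
      simp [Dat.BN, Dat.NS]
    rw [this]
    simpa using hB0 k
  | succ j ih =>
    intro k hk
    have hqpos : 0 < D.q k := by rw [hq]; exact div_pos (hx _) (hx _)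
    have hxq : D.q k * x k = x (k + 1) := by rw [hq]; field_simp [(hx k).ne']
    set S := D.BN x u v (j + 1) k with hS
    -- bad windows in the range of a node
    have hnode : ∀ m ∈ S, D.q k / 8 ≤ (((D.Rg k m).filter fun N => ¬ (D.G (k + 1) / 2 ≤
        wcnt (fun n => D.P (k + 1) n ∧ n ∉ D.NS j (k + 1)) N (D.H (k + 1)))).card : ℝ) := by
      intro m hm
      simp only [hS, Dat.BN, Finset.mem_filter, Finset.mem_range] at hm
      obtain ⟨-, hm1, hm2, hm3⟩ := hm
      simp only [Dat.NS, mem_ofPred_eq] at hm3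
      have h1 := Finset.card_filter_add_card_filter_not (s := D.Rg k m) (fun N => D.G (k + 1) / 2 ≤
        (wcnt (fun n => D.P (k + 1) n ∧ n ∉ D.NS j (k + 1)) N (D.H (k + 1)) : ℝ))
      have h2 : D.q k / 4 ≤ ((D.Rg k m).card : ℝ) := by
        have h3 := card_range_ge (D.X (k + 1)) ((m : ℝ) * D.q k) (((m : ℝ) + 1 / 2) * D.q k)
          ((D.H (k + 1) : ℝ) + 1) ?_ ?_ (by positivity)
        · have h4 := hH k hk
          have h5 : (D.Rg k m) = ((Finset.Icc 1 (D.X (k + 1))).filter fun N : ℕ => (m : ℝ) * D.q k ≤ N ∧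
              (N : ℝ) + ((D.H (k + 1) : ℝ) + 1) ≤ ((m : ℝ) + 1 / 2) * D.q k) := by
            unfold Dat.Rg
            congr 1
            ext N
            rw [← add_assoc]
          rw [h5]
          linarith
        · have h4 := hu k hk
          calc (1 : ℝ) ≤ u * x (k + 1) := h4
            _ = (u * x k) * D.q k := by rw [← hxq]; ring
            _ ≤ m * D.q k := by gcongr
        · calc ((m : ℝ) + 1 / 2) * D.q k ≤ (v * x k) * D.q k := by
                apply mul_le_mul_of_nonneg_right _ hqpos.le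
                linarith
            _ = v * x (k + 1) := by rw [← hxq]; ring
            _ ≤ D.X (k + 1) := hX k hk
      have h6 : ((((D.Rg k m).filter fun N => D.G (k + 1) / 2 ≤
          (wcnt (fun n => D.P (k + 1) n ∧ n ∉ D.NS j (k + 1)) N (D.H (k + 1)) : ℝ)).card : ℕ) : ℝ) +
          ((((D.Rg k m).filter fun N => ¬ (D.G (k + 1) / 2 ≤
          (wcnt (fun n => D.P (k + 1) n ∧ n ∉ D.NS j (k + 1)) N (D.H (k + 1)) : ℝ))).card : ℕ) : ℝ) =
          ((D.Rg k m).card : ℝ) := by exact_mod_cast h1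
      linarith
    -- disjointness
    have hdis : (S.card : ℝ) * (D.q k / 8) ≤ ((D.BW x u v j (k + 1)).card : ℝ) := by
      have h1 : (S.card : ℝ) * (D.q k / 8) ≤ ∑ m ∈ S, (((D.Rg k m).filter fun N => ¬ (D.G (k + 1) / 2 ≤
        wcnt (fun n => D.P (k + 1) n ∧ n ∉ D.NS j (k + 1)) N (D.H (k + 1)))).card : ℝ) := by
        rw [← nsmul_eq_mul, ← Finset.sum_const]
        exact Finset.sum_le_sum hnode
      refine h1.trans ?_
      have h2 : ∑ m ∈ S, ((D.Rg k m).filter fun N => ¬ (D.G (k + 1) / 2 ≤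
        (wcnt (fun n => D.P (k + 1) n ∧ n ∉ D.NS j (k + 1)) N (D.H (k + 1)) : ℝ))).card =
        (S.biUnion fun m => (D.Rg k m).filter fun N => ¬ (D.G (k + 1) / 2 ≤
        (wcnt (fun n => D.P (k + 1) n ∧ n ∉ D.NS j (k + 1)) N (D.H (k + 1)) : ℝ))).card := by
        rw [Finset.card_biUnion]
        intro m _ m' _ hne
        rw [Function.onFun, Finset.disjoint_left]
        intro N hN hN'
        simp only [Dat.Rg, Finset.mem_filter] at hN hN'
        obtain ⟨⟨-, a1, a2⟩, -⟩ := hN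
        obtain ⟨⟨-, b1, b2⟩, -⟩ := hN'
        have hHn : (0 : ℝ) ≤ D.H (k + 1) := Nat.cast_nonneg _
        rcases lt_or_gt_of_ne hne with h | h
        · have h3 : (m : ℝ) + 1 ≤ m' := by exact_mod_cast h
          have h4 : ((m : ℝ) + 1) * D.q k ≤ m' * D.q k := by gcongr
          nlinarith
        · have h3 : (m' : ℝ) + 1 ≤ m := by exact_mod_cast h
          have h4 : ((m' : ℝ) + 1) * D.q k ≤ m * D.q k := by gcongr
          nlinarith
      have h3 : (S.biUnion fun m => (D.Rg k m).filter fun N => ¬ (D.G (k + 1) / 2 ≤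
        (wcnt (fun n => D.P (k + 1) n ∧ n ∉ D.NS j (k + 1)) N (D.H (k + 1)) : ℝ))) ⊆
        D.BW x u v j (k + 1) := by
        intro N hN
        rw [Finset.mem_biUnion] at hN
        obtain ⟨m, hm, hN⟩ := hN
        simp only [Dat.Rg, Finset.mem_filter] at hN
        obtain ⟨⟨a0, a1, a2⟩, a3⟩ := hN
        simp only [hS, Dat.BN, Finset.mem_filter, Finset.mem_range] at hm
        obtain ⟨-, hm1, hm2, -⟩ := hm
        simp only [Dat.BW, Finset.mem_filter]
        refine ⟨a0, ?_, ?_, a3⟩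
        · calc u * x (k + 1) = (u * x k) * D.q k := by rw [← hxq]; ring
            _ ≤ m * D.q k := by gcongr
            _ ≤ N := a1
        · calc (N : ℝ) + D.H (k + 1) + 1 ≤ ((m : ℝ) + 1 / 2) * D.q k := a2
            _ ≤ (v * x k) * D.q k := by
                apply mul_le_mul_of_nonneg_right _ hqpos.le
                linarith
            _ = v * x (k + 1) := by rw [← hxq]; ring
      have h4 := Finset.card_le_card h3
      rw [← h2] at h4
      exact_mod_cast h4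
    have h7 := D.BW_le x u v j (k + 1) (E (k + 1)) (hX k hk) (hE k hk) (hG k hk)
    have h8 := ih (k + 1) (by omega)
    have hGk := hG k hk
    have h9 : ((D.BW x u v j (k + 1)).card : ℝ) ≤ E (k + 1) + 2 * D.H (k + 1) / D.G (k + 1) * B (k + 1) := by
      refine h7.trans ?_
      gcongr
    have h10 : (S.card : ℝ) ≤ 8 / D.q k * (E (k + 1) + 2 * D.H (k + 1) / D.G (k + 1) * B (k + 1)) := by
      have h11 : (S.card : ℝ) = 8 / D.q k * (S.card * (D.q k / 8)) := by field_simp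
      rw [h11]
      apply mul_le_mul_of_nonneg_left (hdis.trans h9) (by positivity)
    exact h10.trans (hB k hk)

end Pool.Agent.Q273.CH
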