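import Mathlib
import Pool.Agent.Q273.CG.Tree

/-!
# Hausdorff dimension of Cantor sets built from admissible intervals
-/

set_option autoImplicit false

namespace Pool.Agent.Q273.CG

open Set Filter Topology MeasureTheory
open scoped ENNReal NNReal

/-- Every interval `[w, w + ℓ n]` with `Q n w` contains `T n` subintervals of length `ℓ (n + 1)` of
`A n` with `Q (n + 1)`, the `i`-th and the `j`-th of which have the distance at least `(j - i) σ n`;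
and `(∏_{i < n} T i) (T n σ n)^s ≥ c`. Then the points in all the sets `A n` have dimension at least
`s`. -/
theorem le_dimH_inv {a c : ℝ} {s : ℝ≥0} (hs : 0 < s) (hs1 : (s : ℝ) ≤ 1) (hc : 0 < c)
    (ℓ σ : ℕ → ℝ) (T : ℕ → ℕ)
    (A : ℕ → Set ℝ) (hℓ : ∀ n, 0 < ℓ n) (hℓ0 : Tendsto ℓ atTop (𝓝 0)) (Q : ℕ → ℝ → Prop) (hQ0 : Q 0 a)
    (hσ : ∀ n, 0 < σ n) (hTpos : ∀ n, 0 < T n)
    (hprod0 : Tendsto (fun n => ∏ i ∈ Finset.range n, (T i : ℝ)) atTop atTop)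
    (hprod : ∀ n, c ≤ (∏ i ∈ Finset.range n, (T i : ℝ)) * (T n * σ n) ^ (s : ℝ))
    (hA : ∀ n w, Q n w → ∃ φ : ℕ → ℝ,
      (∀ j, j < T n → Q (n + 1) (φ j) ∧ w ≤ φ j ∧ φ j + ℓ (n + 1) ≤ w + ℓ n ∧
        Icc (φ j) (φ j + ℓ (n + 1)) ⊆ A n) ∧
      ∀ i j : ℕ, i < j → j < T n → φ i + ℓ (n + 1) + ((j : ℝ) - i) * σ n ≤ φ j) :
    (s : ℝ≥0∞) ≤ dimH {α : ℝ | a ≤ α ∧ α ≤ a + ℓ 0 ∧ ∀ n, α ∈ A n} := by
  classical
  have hs0 : (0 : ℝ) < s := by exact_mod_cast hs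
  have hTr : ∀ n, (1 : ℝ) ≤ T n := fun n => by exact_mod_cast hTpos n
  -- the choice of the children
  have hA' : ∀ n w, ∃ φ : ℕ → ℝ, (Q n w →
      (∀ j, j < T n → Q (n + 1) (φ j) ∧ w ≤ φ j ∧ φ j + ℓ (n + 1) ≤ w + ℓ n ∧
        Icc (φ j) (φ j + ℓ (n + 1)) ⊆ A n) ∧
      ∀ i j : ℕ, i < j → j < T n → φ i + ℓ (n + 1) + ((j : ℝ) - i) * σ n ≤ φ j) := by
    intro n w
    by_cases h : Q n w
    · obtain ⟨φ, hφ⟩ := hA n w h
      exact ⟨φ, fun _ => hφ⟩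
    · exact ⟨0, fun h1 => absurd h1 h⟩
  choose φ hφ using hA'
  let Lf : ℕ → (∀ n, Fin (T n)) → ℝ := fun n => Nat.rec (fun _ => a)
    (fun n L ω => φ n (L ω) (ω n)) n
  have hL0 : ∀ ω, Lf 0 ω = a := fun ω => rfl
  have hLs : ∀ n ω, Lf (n + 1) ω = φ n (Lf n ω) (ω n) := fun n ω => rfl
  have hin : ∀ (n : ℕ) (ω : ∀ n, Fin (T n)), a ≤ Lf n ω ∧ Lf n ω + ℓ n ≤ a + ℓ 0 ∧ Q n (Lf n ω) := by
    intro n ω
    induction n with
    | zero => rw [hL0]; exact ⟨le_refl _, le_refl _, hQ0⟩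
    | succ n ih =>
      rw [hLs]
      obtain ⟨h3, h4, h5, -⟩ := (hφ n (Lf n ω) ih.2.2).1 (ω n) (ω n).2
      exact ⟨by linarith [ih.1], by linarith [ih.2.1], h3⟩
  have hstep : ∀ (n : ℕ) (ω : ∀ n, Fin (T n)),
      Lf n ω ≤ Lf (n + 1) ω ∧ Lf (n + 1) ω + ℓ (n + 1) ≤ Lf n ω + ℓ n ∧
      Icc (Lf (n + 1) ω) (Lf (n + 1) ω + ℓ (n + 1)) ⊆ A n := by
    intro n ω
    rw [hLs]
    exact ((hφ n (Lf n ω) (hin n ω).2.2).1 (ω n) (ω n).2).2
  have hmono : ∀ ω, Monotone (fun n => Lf n ω) := fun ω =>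
    monotone_nat_of_le_succ fun n => (hstep n ω).1
  have hanti : ∀ ω, Antitone (fun n => Lf n ω + ℓ n) := fun ω =>
    antitone_nat_of_succ_le fun n => (hstep n ω).2.1
  -- the limit points
  have hbdd : ∀ ω, BddAbove (range fun n => Lf n ω) := by
    intro ω
    refine ⟨a + ℓ 0, ?_⟩
    rintro _ ⟨n, rfl⟩
    have := (hin n ω).2.1
    have := hℓ n
    simp only
    linarith
  set π : (∀ n, Fin (T n)) → ℝ := fun ω => ⨆ n, Lf n ω with hπ
  have hlim : ∀ ω, Tendsto (fun n => Lf n ω) atTop (𝓝 (π ω)) := fun ω =>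
    tendsto_atTop_ciSup (hmono ω) (hbdd ω)
  have hπ1 : ∀ n ω, Lf n ω ≤ π ω := fun n ω => le_ciSup (hbdd ω) n
  have hπ2 : ∀ n ω, π ω ≤ Lf n ω + ℓ n := by
    intro n ω
    have h1 : Tendsto (fun n => Lf n ω + ℓ n) atTop (𝓝 (π ω + 0)) := (hlim ω).add hℓ0
    rw [add_zero] at h1
    exact (hanti ω).le_of_tendsto h1 n
  have hdep : ∀ (n : ℕ) (ω ω' : ∀ n, Fin (T n)), (∀ i < n, ω i = ω' i) → Lf n ω = Lf n ω' := by
    intro n ω ω' h
    induction n with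
    | zero => rw [hL0, hL0]
    | succ n ih =>
      rw [hLs, hLs, ih (fun i hi => h i (by omega)), h n (by omega)]
  have hπm : Measurable π :=
    measurable_of_tendsto_metrizable (f := fun n => Lf n) (fun n => measurable_of_dep hTpos n (hdep n))
      (tendsto_pi_nhds.2 hlim)
  -- product of the branching numbers
  have hprodpos : ∀ n, 0 < ∏ i ∈ Finset.range n, (T i : ℝ) := fun n =>
    Finset.prod_pos fun i _ => by linarith [hTr i]
  have hpeq : ∀ n, ∏ i ∈ Finset.range n, (1 / (T i : ℝ)) = (∏ i ∈ Finset.range n, (T i : ℝ))⁻¹ := by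
    intro n
    rw [← Finset.prod_inv_distrib]
    exact Finset.prod_congr rfl fun i _ => one_div _
  refine Q261.Asy.le_dimH_of_levels T (fun n _ => 1 / (T n : ℝ)) (fun n v => by positivity)
    (fun n => ?_) (π := π) hπm hs (C := 2 * c⁻¹) (by positivity) (fun ω => ?_)
    (fun n ω ω' h hlt => ?_) _ (fun ω => ?_)
  · have h2 : (T n : ℝ) ≠ 0 := by linarith [hTr n]
    simp [h2]
  · -- the cylinders shrink
    have h1 : Tendsto (fun n => (∏ i ∈ Finset.range n, (T i : ℝ))⁻¹) atTop (𝓝 0) :=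
      hprod0.inv_tendsto_atTop
    refine h1.congr fun n => ?_
    rw [hpeq]
  · -- the main inequality
    have hTn : (0 : ℝ) < T n := by linarith [hTr n]
    set d : ℝ := ((ω' n : ℕ) : ℝ) - ((ω n : ℕ) : ℝ) with hd
    have hlt' : (ω n : ℕ) < (ω' n : ℕ) := hlt
    have hd1 : 1 ≤ d := by
      have h6 : ((ω n : ℕ) : ℝ) + 1 ≤ ((ω' n : ℕ) : ℝ) := by exact_mod_cast hlt'
      linarith
    have hd0 : 0 ≤ d := by linarith
    have hdT : d ≤ T n := by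
      have h6 : ((ω' n : ℕ) : ℝ) ≤ T n := by exact_mod_cast (ω' n).2.le
      have h7 : (0 : ℝ) ≤ ((ω n : ℕ) : ℝ) := Nat.cast_nonneg _
      linarith
    have hsum : ∑ v ∈ Finset.Icc (ω n) (ω' n), 1 / (T n : ℝ) = (d + 1) / T n := by
      rw [Finset.sum_const, Fin.card_Icc, nsmul_eq_mul]
      have : (((ω' n : ℕ) + 1 - (ω n : ℕ) : ℕ) : ℝ) = d + 1 := by
        rw [Nat.cast_sub (by omega)]
        push_cast
        rw [hd]
        ring
      rw [this]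
      ring
    have hsep : d * σ n ≤ |π ω - π ω'| := by
      rw [abs_sub_comm]
      refine le_trans ?_ (le_abs_self _)
      have h1 := hπ2 (n + 1) ω
      have h3 := hπ1 (n + 1) ω'
      have h4 := (hφ n (Lf n ω) (hin n ω).2.2).2 (ω n) (ω' n) hlt' (ω' n).2
      have e1 : Lf (n + 1) ω = φ n (Lf n ω) (ω n) := hLs n ω
      have e2 : Lf (n + 1) ω' = φ n (Lf n ω) (ω' n) := by rw [hLs, hdep n ω ω' h]
      rw [← e1, ← e2, ← hd] at h4
      linarith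
    have h1 : (d + 1) / T n ≤ 2 * (d / T n) ^ (s : ℝ) := by
      have h2 : (d + 1) / T n ≤ 2 * (d / T n) := by
        rw [← mul_div_assoc]
        apply div_le_div_of_nonneg_right _ hTn.le
        linarith
      refine h2.trans ?_
      apply mul_le_mul_of_nonneg_left _ (by norm_num)
      have h3 : d / T n ≤ 1 := by
        rw [div_le_one hTn]
        exact hdT
      calc d / T n = (d / T n) ^ (1 : ℝ) := (Real.rpow_one _).symm
        _ ≤ (d / T n) ^ (s : ℝ) :=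
            Real.rpow_le_rpow_of_exponent_ge (by positivity) h3 hs1
    rw [hsum]
    have hTσ : 0 < (T n : ℝ) * σ n := mul_pos hTn (hσ n)
    have h5 : (d / T n) ^ (s : ℝ) * ((T n : ℝ) * σ n) ^ (s : ℝ) ≤ |π ω - π ω'| ^ (s : ℝ) := by
      rw [← Real.mul_rpow (by positivity) hTσ.le]
      apply Real.rpow_le_rpow (by positivity) _ hs0.le
      have : d / T n * ((T n : ℝ) * σ n) = d * σ n := by field_simp
      rw [this]
      exact hsep
    have h6 : (∏ i ∈ Finset.range n, (T i : ℝ))⁻¹ ≤ c⁻¹ * ((T n : ℝ) * σ n) ^ (s : ℝ) := by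
      have h7 := hprod n
      have h8 := hprodpos n
      rw [inv_eq_one_div, div_le_iff₀ h8]
      have h9 : 1 ≤ c⁻¹ * ((∏ i ∈ Finset.range n, (T i : ℝ)) * ((T n : ℝ) * σ n) ^ (s : ℝ)) := by
        rw [inv_mul_eq_div, le_div_iff₀ hc]
        linarith
      calc (1 : ℝ) ≤ c⁻¹ * ((∏ i ∈ Finset.range n, (T i : ℝ)) * ((T n : ℝ) * σ n) ^ (s : ℝ)) := h9
        _ = _ := by ring
    rw [hpeq]
    calc (∏ i ∈ Finset.range n, (T i : ℝ))⁻¹ * ((d + 1) / T n)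
        ≤ (c⁻¹ * ((T n : ℝ) * σ n) ^ (s : ℝ)) * (2 * (d / T n) ^ (s : ℝ)) :=
          mul_le_mul h6 h1 (by positivity)
            (mul_nonneg (inv_nonneg.2 hc.le) (Real.rpow_nonneg hTσ.le _))
      _ = 2 * c⁻¹ * ((d / T n) ^ (s : ℝ) * ((T n : ℝ) * σ n) ^ (s : ℝ)) := by ring
      _ ≤ 2 * c⁻¹ * |π ω - π ω'| ^ (s : ℝ) := mul_le_mul_of_nonneg_left h5 (by positivity)
  · refine ⟨(hin 0 ω).1.trans (hπ1 0 ω), (hπ2 0 ω).trans (hin 0 ω).2.1, fun n => ?_⟩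
    exact (hstep n ω).2.2 ⟨hπ1 (n + 1) ω, hπ2 (n + 1) ω⟩

end Pool.Agent.Q273.CG
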