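import Mathlib
import Pool.Agent.Q273.CH.Exc2
import Pool.Agent.Q273.CH.Inv
import Pool.Agent.Q273.CG.Two

/-!
# Cantor trees with sparse exceptional windows: the tree
-/

set_option autoImplicit false

namespace Pool.Agent.Q273.CH

open Set Filter Topology MeasureTheory
open scoped ENNReal NNReal
open Pool.Agent.Q273.CG (alt alt_even alt_odd alt_prod alt_cases)

/-- the members of a finite set of natural numbers with at least `K` elements -/
lemma enum_fin (S : Finset ℕ) (K : ℕ) (hK : K ≤ S.card) : ∃ φ : ℕ → ℕ,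
    (∀ j, j < K → φ j ∈ S) ∧ ∀ i j : ℕ, i < j → j < K → φ i < φ j := by
  classical
  set e := S.orderEmbOfFin (rfl : S.card = S.card) with he
  obtain ⟨φ, hφ⟩ : ∃ φ : ℕ → ℕ, ∀ j (h : j < S.card), φ j = e ⟨j, h⟩ :=
    ⟨fun j => if h : j < S.card then e ⟨j, h⟩ else 0, fun j h => dif_pos h⟩
  refine ⟨φ, fun j hj => ?_, fun i j hij hj => ?_⟩
  · rw [hφ j (by omega)]
    exact Finset.orderEmbOfFin_mem _ _ _
  · rw [hφ _ (show i < S.card by omega), hφ _ (show j < S.card by omega)]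
    exact e.strictMono (by simpa [Fin.lt_def] using hij)

lemma enum_gap (φ : ℕ → ℕ) (K d : ℕ) (h : ∀ i j : ℕ, i < j → j < K → φ i < φ j)
    (hm : ∀ i j : ℕ, i < K → j < K → φ i ≡ φ j [MOD d]) (i j : ℕ) (hij : i ≤ j) (hj : j < K) :
    φ i + d * (j - i) ≤ φ j := by
  obtain ⟨m, rfl⟩ := Nat.exists_eq_add_of_le hij
  induction m with
  | zero => simp
  | succ m ih =>
    have h1 := ih (by omega) (by omega)
    have h2 := h (i + m) (i + (m + 1)) (by omega) hj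
    have h3 := (Nat.modEq_iff_dvd' h2.le).1 (hm (i + m) (i + (m + 1)) (by omega) hj)
    have h4 := Nat.le_of_dvd (by omega) h3
    have e1 : i + (m + 1) - i = m + 1 := by omega
    have e2 : i + m - i = m := by omega
    rw [e1, mul_add, mul_one]
    rw [e2] at h1
    omega

open Classical in
lemma Dat.childW (D : Dat) (k m : ℕ) (hm : m ∈ D.Sv k) (hH : 1 ≤ D.H (k + 1)) (hq : 0 ≤ D.q k) :
    ∃ φ : ℕ → ℕ, (∀ j, j < ⌊D.q k / (16 * D.H (k + 1))⌋₊ → φ j ∈ D.Rg k m ∧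
      D.G (k + 1) / 2 ≤ wcnt (fun n => D.P (k + 1) n ∧ n ∈ D.Sv (k + 1)) (φ j) (D.H (k + 1))) ∧
      ∀ i j : ℕ, i < j → j < ⌊D.q k / (16 * D.H (k + 1))⌋₊ →
        φ i + 2 * D.H (k + 1) * (j - i) ≤ φ j := by
  set H := D.H (k + 1) with hHdef
  set T := ⌊D.q k / (16 * H)⌋₊ with hT
  have hHr : (0 : ℝ) < H := by exact_mod_cast (by omega : 0 < H)
  have h1 := D.Sv_step k m hm
  set A := (D.Rg k m).filter fun N =>
      D.G (k + 1) / 2 ≤ wcnt (fun n => D.P (k + 1) n ∧ n ∈ D.Sv (k + 1)) N (D.H (k + 1)) with hA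
  have h2 : (2 * H) * T ≤ A.card := by
    have h3 : (T : ℝ) ≤ D.q k / (16 * H) := Nat.floor_le (by positivity)
    rw [le_div_iff₀ (by positivity)] at h3
    have h4 : (2 * (H : ℝ)) * T ≤ A.card := by linarith
    exact_mod_cast h4
  obtain ⟨r, -, hr2⟩ := Finset.exists_le_card_fiber_of_mul_le_card_of_maps_to
    (s := A) (t := Finset.range (2 * H)) (f := fun N => N % (2 * H)) (n := T)
    (fun N _ => Finset.mem_range.2 (Nat.mod_lt _ (by omega))) ⟨0, Finset.mem_range.2 (by omega)⟩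
    (by rw [Finset.card_range]; exact h2)
  obtain ⟨φ, hφ1, hφ2⟩ := enum_fin _ T hr2
  have hmem : ∀ j, j < T → φ j ∈ A ∧ φ j % (2 * H) = r := by
    intro j hj
    have := hφ1 j hj
    rw [Finset.mem_filter] at this
    exact this
  refine ⟨φ, fun j hj => ?_, fun i j hij hj => ?_⟩
  · have := (hmem j hj).1
    rw [hA, Finset.mem_filter] at this
    exact this
  · refine enum_gap φ T (2 * H) hφ2 ?_ i j hij.le hj
    intro i j hi hj
    unfold Nat.ModEq
    rw [(hmem i hi).2, (hmem j hj).2]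

open Classical in
lemma childN (A : ℕ → Prop) (N H : ℕ) (g : ℝ) (hg : 0 ≤ g) (h : g ≤ wcnt A N H) :
    ∃ φ : ℕ → ℕ, (∀ j, j < ⌊g⌋₊ → N < φ j ∧ φ j ≤ N + H ∧ A (φ j)) ∧
      ∀ i j : ℕ, i < j → j < ⌊g⌋₊ → φ i + (j - i) ≤ φ j := by
  have h1 : ⌊g⌋₊ ≤ ((Finset.Ioc N (N + H)).filter A).card := by
    have h2 : (⌊g⌋₊ : ℝ) ≤ g := Nat.floor_le hg
    have h3 : (⌊g⌋₊ : ℝ) ≤ wcnt A N H := h2.trans h
    have h4 : ⌊g⌋₊ ≤ wcnt A N H := by exact_mod_cast h3
    exact h4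
  obtain ⟨φ, hφ1, hφ2⟩ := enum_fin _ _ h1
  refine ⟨φ, fun j hj => ?_, fun i j hij hj => ?_⟩
  · have := hφ1 j hj
    simp only [Finset.mem_filter, Finset.mem_Ioc] at this
    exact ⟨this.1.1, this.1.2, this.2⟩
  · have := enum_gap φ _ 1 hφ2 (fun i j _ _ => Nat.modEq_one) i j hij.le hj
    simpa using this

/-- the tree -/
theorem Dat.tree (D : Dat) (x : ℕ → ℝ) (u v : ℝ) (k1 : ℕ) (s : ℝ≥0) (hs : 0 < s) (hs1 : (s : ℝ) ≤ 1)
    (c : ℝ) (hc : 0 < c) (hx : ∀ k, 0 < x k) (hxt : Tendsto x atTop atTop)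
    (hq : ∀ k, D.q k = x (k + 1) / x k)
    (hH : ∀ k ≥ k1, 2 ≤ D.H (k + 1)) (hHx : Tendsto (fun k => ((D.H k : ℝ) + 1) / x k) atTop (𝓝 0))
    (hT : ∀ k ≥ k1, 2 ≤ D.q k / (16 * D.H (k + 1))) (hG : ∀ k ≥ k1, 4 ≤ D.G (k + 1))
    (hprod : ∀ K, c ≤ (∏ i ∈ Finset.range K, ((⌊D.q (k1 + i) / (16 * D.H (k1 + i + 1))⌋₊ : ℝ) *
      ⌊D.G (k1 + i + 1) / 2⌋₊)) * ((⌊D.q (k1 + K) / (16 * D.H (k1 + K + 1))⌋₊ : ℝ) *
        (D.H (k1 + K + 1) / (2 * x (k1 + K + 1)))) ^ (s : ℝ))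
    (hprod' : ∀ K, c ≤ (∏ i ∈ Finset.range K, ((⌊D.q (k1 + i) / (16 * D.H (k1 + i + 1))⌋₊ : ℝ) *
      ⌊D.G (k1 + i + 1) / 2⌋₊)) * ⌊D.q (k1 + K) / (16 * D.H (k1 + K + 1))⌋₊ *
        ((⌊D.G (k1 + K + 1) / 2⌋₊ : ℝ) * (1 / (2 * x (k1 + K + 1)))) ^ (s : ℝ))
    (m0 : ℕ) (hm1 : u * x k1 ≤ m0) (hm2 : (m0 : ℝ) + 1 ≤ v * x k1) (hm3 : m0 ∈ D.Sv k1) :
    (s : ℝ≥0∞) ≤ dimH {α : ℝ | u ≤ α ∧ α ≤ v ∧ ∀ i, ∃ n : ℕ, D.P (k1 + i + 1) n ∧
      (n : ℝ) ≤ α * x (k1 + i + 1) ∧ α * x (k1 + i + 1) ≤ n + 1 / 2} := by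
  set F : ℕ → ℕ := fun i => ⌊D.q (k1 + i) / (16 * D.H (k1 + i + 1))⌋₊ with hF
  set F' : ℕ → ℕ := fun i => ⌊D.G (k1 + i + 1) / 2⌋₊ with hF'
  set ℓ : ℕ → ℝ := alt (fun i => 1 / (2 * x (k1 + i)))
    (fun i => ((D.H (k1 + i + 1) : ℝ) + 1) / x (k1 + i + 1)) with hℓ
  set σ : ℕ → ℝ := alt (fun i => (D.H (k1 + i + 1) : ℝ) / (2 * x (k1 + i + 1)))
    (fun i => 1 / (2 * x (k1 + i + 1))) with hσ
  set A : ℕ → Set ℝ := alt (fun _ => Set.univ) (fun i => {α | ∃ n : ℕ, D.P (k1 + i + 1) n ∧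
      (n : ℝ) ≤ α * x (k1 + i + 1) ∧ α * x (k1 + i + 1) ≤ n + 1 / 2}) with hA
  set Q : ℕ → ℝ → Prop := alt (fun i w => ∃ m : ℕ, u * x (k1 + i) ≤ m ∧ (m : ℝ) + 1 ≤ v * x (k1 + i) ∧
      m ∈ D.Sv (k1 + i) ∧ w = m / x (k1 + i))
    (fun i w => ∃ N : ℕ, u * x (k1 + i + 1) ≤ N ∧ (N : ℝ) + D.H (k1 + i + 1) + 1 ≤ v * x (k1 + i + 1) ∧
      D.G (k1 + i + 1) / 2 ≤ wcnt (fun n => D.P (k1 + i + 1) n ∧ n ∈ D.Sv (k1 + i + 1)) N
        (D.H (k1 + i + 1)) ∧ w = N / x (k1 + i + 1)) with hQ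
  have hF2 : ∀ i, 2 ≤ F i := fun i => Nat.le_floor (by exact_mod_cast hT (k1 + i) (by omega))
  have hF2' : ∀ i, 2 ≤ F' i := fun i => Nat.le_floor (by
    have := hG (k1 + i) (by omega)
    push_cast
    linarith)
  have hqpos : ∀ k, 0 < D.q k := fun k => by rw [hq]; exact div_pos (hx _) (hx _)
  have hxq : ∀ k, D.q k * x k = x (k + 1) := fun k => by rw [hq]; field_simp [(hx k).ne']
  have key := Pool.Agent.Q273.CG.le_dimH_inv (a := m0 / x k1) (c := c) hs hs1 hc ℓ σ (alt F F') A ?_ ?_ Q ?_ ?_ ?_ ?_ ?_ ?_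
  · refine key.trans (dimH_mono ?_)
    rintro α ⟨h1, h2, h3⟩
    have hx1 := hx k1
    refine ⟨?_, ?_, fun i => ?_⟩
    · refine le_trans ?_ h1
      rw [le_div_iff₀ hx1]
      exact hm1
    · refine h2.trans ?_
      have e0 : ℓ (2 * 0) = 1 / (2 * x k1) := by
        rw [hℓ, alt_even]
        rfl
      have e0' : ℓ 0 = 1 / (2 * x k1) := e0
      rw [e0']
      have e1 : (m0 : ℝ) / x k1 + 1 / (2 * x k1) = (m0 + 1 / 2) / x k1 := by field_simp
      rw [e1, div_le_iff₀ hx1]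
      linarith
    · have h4 := h3 (2 * i + 1)
      rw [hA, alt_odd] at h4
      exact h4
  · -- positivity of ℓ
    refine fun n => alt_cases (P := fun n => 0 < ℓ n) (fun k => ?_) (fun k => ?_) n
    · simp only [hℓ]; rw [alt_even]; have := hx (k1 + k); positivity
    · simp only [hℓ]; rw [alt_odd]; have := hx (k1 + k + 1); positivity
  · -- ℓ → 0
    have t1 : Tendsto (fun i => 1 / (2 * x (k1 + i))) atTop (𝓝 0) := by
      have h2 : Tendsto (fun i => x (k1 + i)) atTop atTop := by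
        refine ((tendsto_add_atTop_iff_nat k1).2 hxt).congr fun i => by rw [add_comm]
      refine (h2.const_mul_atTop (by norm_num : (0 : ℝ) < 2)).inv_tendsto_atTop.congr fun i => ?_
      rw [one_div]
      rfl
    have t2 : Tendsto (fun i => ((D.H (k1 + i + 1) : ℝ) + 1) / x (k1 + i + 1)) atTop (𝓝 0) := by
      refine ((tendsto_add_atTop_iff_nat (k1 + 1)).2 hHx).congr fun i => ?_
      rw [show i + (k1 + 1) = k1 + i + 1 by ring]
    rw [Metric.tendsto_atTop] at t1 t2 ⊢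
    intro e he
    obtain ⟨N1, hN1⟩ := t1 e he
    obtain ⟨N2, hN2⟩ := t2 e he
    refine ⟨2 * (N1 + N2) + 2, fun n hn => ?_⟩
    rcases Nat.even_or_odd' n with ⟨k, rfl | rfl⟩
    · simp only [hℓ]; rw [alt_even]; exact hN1 k (by omega)
    · simp only [hℓ]; rw [alt_odd]; exact hN2 k (by omega)
  · -- the root
    have h5 : Q (2 * 0) ((m0 : ℝ) / x k1) := by
      rw [hQ, alt_even]
      exact ⟨m0, hm1, hm2, hm3, rfl⟩
    exact h5
  · refine fun n => alt_cases (P := fun n => 0 < σ n) (fun k => ?_) (fun k => ?_) n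
    · simp only [hσ]; rw [alt_even]
      have := hx (k1 + k + 1)
      have h2 : (0 : ℝ) < D.H (k1 + k + 1) := by
        have := hH (k1 + k) (by omega)
        exact_mod_cast (by omega : 0 < D.H (k1 + k + 1))
      positivity
    · simp only [hσ]; rw [alt_odd]; have := hx (k1 + k + 1); positivity
  · refine fun n => alt_cases (P := fun n => 0 < alt F F' n) (fun k => ?_) (fun k => ?_) n
    · rw [alt_even]; have := hF2 k; omega
    · rw [alt_odd]; have := hF2' k; omega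
  · -- the products tend to infinity
    have h2 : ∀ n, (2 : ℝ) ≤ ((alt F F' n : ℕ) : ℝ) := by
      refine fun n => alt_cases (P := fun n => (2 : ℝ) ≤ ((alt F F' n : ℕ) : ℝ)) (fun k => ?_) (fun k => ?_) n
      · rw [alt_even]; exact_mod_cast hF2 k
      · rw [alt_odd]; exact_mod_cast hF2' k
    refine tendsto_atTop_mono (fun n => ?_) (tendsto_pow_atTop_atTop_of_one_lt (show (1 : ℝ) < 2 by norm_num))
    rw [← Finset.card_range n, ← Finset.prod_const, Finset.card_range]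
    exact Finset.prod_le_prod (fun _ _ => by norm_num) (fun i _ => h2 i)
  · -- the dimension inequality
    refine fun n => alt_cases (P := fun n => c ≤ (∏ i ∈ Finset.range n, ((alt F F' i : ℕ) : ℝ)) *
      ((alt F F' n : ℕ) * σ n) ^ (s : ℝ)) (fun k => ?_) (fun k => ?_) n
    · rw [alt_prod, alt_even]
      simp only [hσ]
      rw [alt_even]
      exact hprod k
    · rw [Finset.prod_range_succ, alt_prod, alt_even, alt_odd]
      simp only [hσ]
      rw [alt_odd]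
      exact hprod' k
  · -- the children
    refine fun n => alt_cases (P := fun n => ∀ w, Q n w → ∃ φ : ℕ → ℝ,
      (∀ j, j < alt F F' n → Q (n + 1) (φ j) ∧ w ≤ φ j ∧ φ j + ℓ (n + 1) ≤ w + ℓ n ∧
        Icc (φ j) (φ j + ℓ (n + 1)) ⊆ A n) ∧
      ∀ i j : ℕ, i < j → j < alt F F' n → φ i + ℓ (n + 1) + ((j : ℝ) - i) * σ n ≤ φ j)
      (fun i => ?_) (fun i => ?_) n
    · intro w hw
      simp only [hQ, alt_even] at hw
      obtain ⟨m, g1, g2, g3, rfl⟩ := hw
      have hxk := hx (k1 + i)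
      have hxk1 := hx (k1 + i + 1)
      have hxqk := hxq (k1 + i)
      have hHk := hH (k1 + i) (by omega)
      have hHr : (2 : ℝ) ≤ D.H (k1 + i + 1) := by exact_mod_cast hHk
      obtain ⟨φ, hφ1, hφ2⟩ := D.childW (k1 + i) m g3 (by omega) (hqpos _).le
      simp only [hQ, hℓ, hσ, hA, alt_even, alt_odd]
      refine ⟨fun j => (φ j : ℝ) / x (k1 + i + 1), fun j hj => ?_, fun a b hab hb => ?_⟩
      · obtain ⟨f1, f2⟩ := hφ1 j hj
        simp only [Dat.Rg, Finset.mem_filter] at f1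
        obtain ⟨-, f3, f4⟩ := f1
        have hqk := hqpos (k1 + i)
        refine ⟨⟨φ j, ?_, ?_, f2, rfl⟩, ?_, ?_, Set.subset_univ _⟩
        · calc u * x (k1 + i + 1) = (u * x (k1 + i)) * D.q (k1 + i) := by rw [← hxqk]; ring
            _ ≤ m * D.q (k1 + i) := by gcongr
            _ ≤ φ j := f3
        · calc (φ j : ℝ) + D.H (k1 + i + 1) + 1 ≤ ((m : ℝ) + 1 / 2) * D.q (k1 + i) := f4
            _ ≤ (v * x (k1 + i)) * D.q (k1 + i) := by
                apply mul_le_mul_of_nonneg_right _ hqk.le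
                linarith
            _ = v * x (k1 + i + 1) := by rw [← hxqk]; ring
        · rw [div_le_div_iff₀ hxk hxk1, ← hxqk]
          calc (m : ℝ) * (D.q (k1 + i) * x (k1 + i)) = (m * D.q (k1 + i)) * x (k1 + i) := by ring
            _ ≤ φ j * x (k1 + i) := by gcongr
        · have e1 : (φ j : ℝ) / x (k1 + i + 1) + ((D.H (k1 + i + 1) : ℝ) + 1) / x (k1 + i + 1) =
              ((φ j : ℝ) + D.H (k1 + i + 1) + 1) / x (k1 + i + 1) := by ring
          have e2 : (m : ℝ) / x (k1 + i) + 1 / (2 * x (k1 + i)) = ((m : ℝ) + 1 / 2) / x (k1 + i) := by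
            field_simp
          rw [e1, e2, div_le_div_iff₀ hxk1 hxk, ← hxqk]
          calc ((φ j : ℝ) + D.H (k1 + i + 1) + 1) * x (k1 + i) ≤
              (((m : ℝ) + 1 / 2) * D.q (k1 + i)) * x (k1 + i) := by gcongr
            _ = ((m : ℝ) + 1 / 2) * (D.q (k1 + i) * x (k1 + i)) := by ring
      · have f5 := hφ2 a b hab hb
        have f6 : (φ a : ℝ) + 2 * D.H (k1 + i + 1) * ((b : ℝ) - a) ≤ φ b := by
          rw [← Nat.cast_sub hab.le]
          exact_mod_cast f5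
        have hba : (1 : ℝ) ≤ (b : ℝ) - a := by
          have : (a : ℝ) + 1 ≤ b := by exact_mod_cast hab
          linarith
        have e1 : (φ a : ℝ) / x (k1 + i + 1) + ((D.H (k1 + i + 1) : ℝ) + 1) / x (k1 + i + 1) +
            ((b : ℝ) - a) * ((D.H (k1 + i + 1) : ℝ) / (2 * x (k1 + i + 1))) =
            ((φ a : ℝ) + (D.H (k1 + i + 1) + 1) + ((b : ℝ) - a) * D.H (k1 + i + 1) / 2) /
              x (k1 + i + 1) := by
          field_simp
        rw [e1]
        apply div_le_div_of_nonneg_right _ hxk1.le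
        have h9 : (D.H (k1 + i + 1) : ℝ) ≤ D.H (k1 + i + 1) * ((b : ℝ) - a) := by nlinarith
        nlinarith
    · intro w hw
      simp only [hQ, alt_odd] at hw
      obtain ⟨N, g1, g2, g3, rfl⟩ := hw
      have hxk1 := hx (k1 + i + 1)
      have hGk := hG (k1 + i) (by omega)
      obtain ⟨φ, hφ1, hφ2⟩ := childN _ N (D.H (k1 + i + 1)) _ (by linarith) g3
      simp only [hQ, hℓ, hσ, hA, show 2 * i + 1 + 1 = 2 * (i + 1) by ring, alt_even, alt_odd]
      refine ⟨fun j => (φ j : ℝ) / x (k1 + i + 1), fun j hj => ?_, fun a b hab hb => ?_⟩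
      · obtain ⟨f1, f2, f3, f4⟩ := hφ1 j hj
        have f1' : (N : ℝ) < φ j := by exact_mod_cast f1
        have f2' : (φ j : ℝ) ≤ N + D.H (k1 + i + 1) := by exact_mod_cast f2
        rw [show k1 + (i + 1) = k1 + i + 1 by ring]
        refine ⟨⟨φ j, by linarith, by linarith, f4, rfl⟩, ?_, ?_, ?_⟩
        · exact div_le_div_of_nonneg_right f1'.le hxk1.le
        · have e1 : (φ j : ℝ) / x (k1 + i + 1) + 1 / (2 * x (k1 + i + 1)) =
              ((φ j : ℝ) + 1 / 2) / x (k1 + i + 1) := by field_simp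
          have e2 : (N : ℝ) / x (k1 + i + 1) + ((D.H (k1 + i + 1) : ℝ) + 1) / x (k1 + i + 1) =
              ((N : ℝ) + D.H (k1 + i + 1) + 1) / x (k1 + i + 1) := by ring
          rw [e1, e2]
          apply div_le_div_of_nonneg_right _ hxk1.le
          linarith
        · intro α hα
          refine ⟨φ j, f3, ?_, ?_⟩
          · have := hα.1
            rwa [div_le_iff₀ hxk1] at this
          · have := hα.2
            have e1 : (φ j : ℝ) / x (k1 + i + 1) + 1 / (2 * x (k1 + i + 1)) =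
              ((φ j : ℝ) + 1 / 2) / x (k1 + i + 1) := by field_simp
            rwa [e1, le_div_iff₀ hxk1] at this
      · have f5 := hφ2 a b hab hb
        have f6 : (φ a : ℝ) + ((b : ℝ) - a) ≤ φ b := by
          rw [← Nat.cast_sub hab.le]
          exact_mod_cast f5
        have hba : (1 : ℝ) ≤ (b : ℝ) - a := by
          have : (a : ℝ) + 1 ≤ b := by exact_mod_cast hab
          linarith
        rw [show k1 + (i + 1) = k1 + i + 1 by ring]
        have e1 : (φ a : ℝ) / x (k1 + i + 1) + 1 / (2 * x (k1 + i + 1)) +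
            ((b : ℝ) - a) * (1 / (2 * x (k1 + i + 1))) =
            ((φ a : ℝ) + 1 / 2 + ((b : ℝ) - a) / 2) / x (k1 + i + 1) := by
          field_simp
        rw [e1]
        apply div_le_div_of_nonneg_right _ hxk1.le
        linarith

end Pool.Agent.Q273.CH
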