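import Mathlib
import Pool.Agent.Q273.CH.Exc3

/-!
# Cantor trees with sparse exceptional windows: the numbers
-/

set_option autoImplicit false

namespace Pool.Agent.Q273.CH

open Set Filter Topology MeasureTheory
open scoped ENNReal NNReal

/-- logarithms against powers -/
lemma ev_log (K a : ℝ) (ha : 0 < a) : ∀ᶠ y : ℝ in atTop, K * Real.log y ≤ y ^ a := by
  have h1 := (isLittleO_log_rpow_atTop ha).def (show (0 : ℝ) < 1 / (|K| + 1) by positivity)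
  filter_upwards [h1, eventually_ge_atTop (1 : ℝ)] with y hy hy1
  have hl : 0 ≤ Real.log y := Real.log_nonneg hy1
  have hp : 0 ≤ y ^ a := Real.rpow_nonneg (by linarith) a
  rw [Real.norm_of_nonneg hl, Real.norm_of_nonneg hp] at hy
  have h2 : (|K| + 1) * Real.log y ≤ y ^ a := by
    calc (|K| + 1) * Real.log y ≤ (|K| + 1) * (1 / (|K| + 1) * y ^ a) := by gcongr
      _ = y ^ a := by field_simp
  have h3 : K ≤ |K| + 1 := (le_abs_self K).trans (by linarith)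
  exact (mul_le_mul_of_nonneg_right h3 hl).trans h2

lemma ev_pow (K a : ℝ) (ha : 0 < a) : ∀ᶠ y : ℝ in atTop, K ≤ y ^ a :=
  (tendsto_rpow_atTop ha).eventually_ge_atTop K

/-- the position bound -/
noncomputable def XB (v y : ℝ) : ℕ := ⌈(v + 1) * y⌉₊

lemma XB_facts (v : ℝ) (hv : 0 < v) : ∀ᶠ y : ℝ in atTop, 1 ≤ y ∧ y ≤ XB v y ∧
    ((XB v y : ℕ) : ℝ) ≤ (v + 2) * y ∧ v * y ≤ XB v y ∧ 0 < Real.log (XB v y) ∧
    Real.log (XB v y) ≤ 2 * Real.log y := by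
  filter_upwards [eventually_ge_atTop (max 2 (v + 2))] with y hy
  have h2 : 2 ≤ y := (le_max_left _ _).trans hy
  have h3 : v + 2 ≤ y := (le_max_right _ _).trans hy
  have h4 : (v + 1) * y ≤ XB v y := Nat.le_ceil _
  have h5 : ((XB v y : ℕ) : ℝ) < (v + 1) * y + 1 := Nat.ceil_lt_add_one (by positivity)
  have h6 : y ≤ XB v y := by nlinarith
  have h7 : ((XB v y : ℕ) : ℝ) ≤ (v + 2) * y := by nlinarith
  refine ⟨by linarith, h6, h7, by nlinarith, Real.log_pos (by linarith), ?_⟩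
  have h8 : ((XB v y : ℕ) : ℝ) ≤ y ^ 2 := by nlinarith
  calc Real.log (XB v y) ≤ Real.log (y ^ 2) := Real.log_le_log (by linarith) h8
    _ = 2 * Real.log y := by rw [Real.log_pow]; norm_num

/-- the window and the threshold -/
lemma HG_facts (v h δ η : ℝ) (hv : 0 < v) (hh : 0 < h) (hη : h < η) (hδ : 0 < δ) :
    ∀ᶠ y : ℝ in atTop, 2 ≤ ⌊((XB v y : ℕ) : ℝ) ^ h⌋₊ ∧
      ((⌊((XB v y : ℕ) : ℝ) ^ h⌋₊ : ℕ) : ℝ) ≤ ((XB v y : ℕ) : ℝ) ^ h ∧
      ((XB v y : ℕ) : ℝ) ^ h ≤ (v + 2) ^ h * y ^ h ∧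
      ((⌊((XB v y : ℕ) : ℝ) ^ h⌋₊ : ℕ) : ℝ) + 2 ≤ y ^ η / 4 ∧
      2 * (16 * ((⌊((XB v y : ℕ) : ℝ) ^ h⌋₊ : ℕ) : ℝ)) ≤ y ^ η ∧
      4 ≤ δ * ((XB v y : ℕ) : ℝ) ^ h / Real.log (XB v y) := by
  filter_upwards [XB_facts v hv, ev_pow 2 h hh, ev_pow (32 * ((v + 2) ^ h + 2)) (η - h) (by linarith),
    ev_log (8 / δ) h hh] with y hy1 hy2 hy3 hy4
  obtain ⟨a1, a2, a3, a4, a5, a6⟩ := hy1
  have hy0 : 0 < y := by linarith
  set X : ℝ := ((XB v y : ℕ) : ℝ) with hX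
  have hX0 : 0 < X := by linarith
  have b1 : y ^ h ≤ X ^ h := Real.rpow_le_rpow hy0.le a2 hh.le
  have b2 : X ^ h ≤ (v + 2) ^ h * y ^ h := by
    rw [← Real.mul_rpow (by linarith) hy0.le]
    exact Real.rpow_le_rpow hX0.le a3 hh.le
  have b3 : ((⌊X ^ h⌋₊ : ℕ) : ℝ) ≤ X ^ h := Nat.floor_le (Real.rpow_nonneg hX0.le _)
  have b4 : 32 * ((v + 2) ^ h + 2) * y ^ h ≤ y ^ η := by
    have : y ^ η = y ^ (η - h) * y ^ h := by rw [← Real.rpow_add hy0]; congr 1; ring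
    rw [this]
    exact mul_le_mul_of_nonneg_right hy3 (Real.rpow_nonneg hy0.le _)
  have b5 : 1 ≤ y ^ h := by linarith
  have b6 : 0 < (v + 2) ^ h := Real.rpow_pos_of_pos (by linarith) _
  refine ⟨Nat.le_floor (by push_cast; linarith), b3, b2, ?_, ?_, ?_⟩
  · nlinarith
  · nlinarith
  · rw [le_div_iff₀ a5]
    have h1 : 8 / δ * Real.log y * δ = 8 * Real.log y := by field_simp
    have h2 : 8 / δ * Real.log y * δ ≤ X ^ h * δ := mul_le_mul_of_nonneg_right (hy4.trans b1) hδ.le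
    nlinarith

/-- the recursion for the number of the nodes which do not survive -/
lemma rec_facts (v h δ ρ C κ : ℝ) (hv : 0 < v) (hh : 0 < h) (hC : 1 < C) (hη : h < 1 - 1 / C)
    (hδ : 0 < δ) (hρ0 : 0 ≤ ρ) (hκ : 0 < κ) (hκρ : κ ≤ (1 - ρ) / 2) :
    ∀ᶠ y : ℝ in atTop, ∀ x : ℝ, 1 ≤ x → x ^ C ≤ y →
      8 / (y / x) * (((XB v y : ℕ) : ℝ) ^ ρ + 2 * ((⌊((XB v y : ℕ) : ℝ) ^ h⌋₊ : ℕ) : ℝ) /
        (δ * ((XB v y : ℕ) : ℝ) ^ h / Real.log (XB v y)) * y ^ (1 - κ)) ≤ x ^ (1 - κ) := by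
  have hC0 : 0 < C := by linarith
  have hiC : 0 < 1 / C := by positivity
  have hiC1 : 1 / C < 1 := by rw [div_lt_one hC0]; exact hC
  filter_upwards [XB_facts v hv, HG_facts v h δ (1 - 1 / C) hv hh hη hδ,
    ev_pow (16 * (v + 2) ^ ρ) (1 - ρ - κ / C) (by
      have : κ / C ≤ κ := div_le_self hκ.le hC.le
      linarith),
    ev_log (64 / δ) (κ * (1 - 1 / C)) (by apply mul_pos hκ; linarith)] with y hy1 hy2 hy3 hy4 x hx1 hxy
  obtain ⟨a1, a2, a3, a4, a5, a6⟩ := hy1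
  obtain ⟨-, b3, -, -, -, -⟩ := hy2
  have hy0 : 0 < y := by linarith
  have hx0 : 0 < x := by linarith
  set X : ℝ := ((XB v y : ℕ) : ℝ) with hX
  have hX0 : 0 < X := by linarith
  have hXh : 0 < X ^ h := Real.rpow_pos_of_pos hX0 _
  have hxC : x ≤ y ^ (1 / C) := by
    calc x = (x ^ C) ^ (1 / C) := by
          rw [← Real.rpow_mul hx0.le]
          have : C * (1 / C) = 1 := by field_simp
          rw [this, Real.rpow_one]
      _ ≤ y ^ (1 / C) := Real.rpow_le_rpow (Real.rpow_nonneg hx0.le _) hxy (by positivity)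
  have hxκ : x ^ κ ≤ y ^ (κ / C) := by
    calc x ^ κ ≤ (y ^ (1 / C)) ^ κ := Real.rpow_le_rpow hx0.le hxC hκ.le
      _ = y ^ (κ / C) := by rw [← Real.rpow_mul hy0.le]; congr 1; ring
  -- the quotient
  have hHG : 2 * ((⌊X ^ h⌋₊ : ℕ) : ℝ) / (δ * X ^ h / Real.log X) ≤ 4 * Real.log y / δ := by
    rw [div_div_eq_mul_div, div_le_div_iff₀ (by positivity) hδ]
    calc 2 * ((⌊X ^ h⌋₊ : ℕ) : ℝ) * Real.log X * δ ≤ 2 * X ^ h * (2 * Real.log y) * δ := by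
          gcongr
      _ = 4 * Real.log y * (δ * X ^ h) := by ring
  have e1 : X ^ ρ ≤ (v + 2) ^ ρ * y ^ ρ := by
    rw [← Real.mul_rpow (by linarith) hy0.le]
    exact Real.rpow_le_rpow hX0.le a3 hρ0
  have hly : 0 ≤ Real.log y := Real.log_nonneg a1
  have hy1κ : 0 < y ^ (1 - κ) := Real.rpow_pos_of_pos hy0 _
  have main : 8 * y ^ (κ / C) * (X ^ ρ + 4 * Real.log y / δ * y ^ (1 - κ)) ≤ y := by
    have m1 : 8 * y ^ (κ / C) * X ^ ρ ≤ y / 2 := by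
      calc 8 * y ^ (κ / C) * X ^ ρ ≤ 8 * y ^ (κ / C) * ((v + 2) ^ ρ * y ^ ρ) := by gcongr
        _ = (16 * (v + 2) ^ ρ) * (y ^ (κ / C) * y ^ ρ) / 2 := by ring
        _ ≤ y ^ (1 - ρ - κ / C) * (y ^ (κ / C) * y ^ ρ) / 2 := by gcongr
        _ = y / 2 := by
            rw [← Real.rpow_add hy0, ← Real.rpow_add hy0]
            have : 1 - ρ - κ / C + (κ / C + ρ) = 1 := by ring
            rw [this, Real.rpow_one]
    have m2 : 8 * y ^ (κ / C) * (4 * Real.log y / δ * y ^ (1 - κ)) ≤ y / 2 := by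
      calc 8 * y ^ (κ / C) * (4 * Real.log y / δ * y ^ (1 - κ)) =
          (64 / δ * Real.log y) * (y ^ (κ / C) * y ^ (1 - κ)) / 2 := by ring
        _ ≤ y ^ (κ * (1 - 1 / C)) * (y ^ (κ / C) * y ^ (1 - κ)) / 2 := by gcongr
        _ = y / 2 := by
            rw [← Real.rpow_add hy0, ← Real.rpow_add hy0]
            have : κ * (1 - 1 / C) + (κ / C + (1 - κ)) = 1 := by ring
            rw [this, Real.rpow_one]
    calc 8 * y ^ (κ / C) * (X ^ ρ + 4 * Real.log y / δ * y ^ (1 - κ)) =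
        8 * y ^ (κ / C) * X ^ ρ + 8 * y ^ (κ / C) * (4 * Real.log y / δ * y ^ (1 - κ)) := by ring
      _ ≤ y := by linarith
  have e2 : 8 / (y / x) * (X ^ ρ + 2 * ((⌊X ^ h⌋₊ : ℕ) : ℝ) /
        (δ * X ^ h / Real.log X) * y ^ (1 - κ)) ≤ 8 / (y / x) * (X ^ ρ + 4 * Real.log y / δ * y ^ (1 - κ)) := by
    gcongr
  refine e2.trans ?_
  have e3 : 8 / (y / x) * (X ^ ρ + 4 * Real.log y / δ * y ^ (1 - κ)) =
      x ^ (1 - κ) * ((8 * x ^ κ * (X ^ ρ + 4 * Real.log y / δ * y ^ (1 - κ))) / y) := by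
    have hxx : x = x ^ (1 - κ) * x ^ κ := by
      rw [← Real.rpow_add hx0]
      have : 1 - κ + κ = 1 := by ring
      rw [this, Real.rpow_one]
    have : 8 / (y / x) = 8 * x / y := by field_simp
    rw [this]
    generalize (X ^ ρ + 4 * Real.log y / δ * y ^ (1 - κ)) = z
    nth_rewrite 1 [hxx]
    ring
  rw [e3]
  have hpos : 0 ≤ X ^ ρ + 4 * Real.log y / δ * y ^ (1 - κ) := by positivity
  have e4 : (8 * x ^ κ * (X ^ ρ + 4 * Real.log y / δ * y ^ (1 - κ))) / y ≤ 1 := by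
    rw [div_le_one hy0]
    refine le_trans ?_ main
    gcongr
  have hx1κ : 0 ≤ x ^ (1 - κ) := Real.rpow_nonneg hx0.le _
  calc x ^ (1 - κ) * ((8 * x ^ κ * (X ^ ρ + 4 * Real.log y / δ * y ^ (1 - κ))) / y) ≤ x ^ (1 - κ) * 1 := by
        gcongr
    _ = x ^ (1 - κ) := mul_one _

end Pool.Agent.Q273.CH
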