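import Mathlib
import Pool.Agent.Q273.CH.Exc4

/-!
# Cantor trees with sparse exceptional windows: the theorem
-/

set_option autoImplicit false

namespace Pool.Agent.Q273.CH

open Set Filter Topology MeasureTheory
open scoped ENNReal NNReal

lemma half_floor {t : ℝ} (ht : 2 ≤ t) : t / 2 ≤ (⌊t⌋₊ : ℝ) := by
  have := Nat.lt_floor_add_one t
  linarith

/-- the products -/
lemma prod_facts (v h δ ε η : ℝ) (hv : 0 < v) (hh : 0 < h) (hη : h < η) (hη1 : η < 1) (hδ : 0 < δ)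
    (hε : 0 < ε) (hε1 : ε < 1) :
    ∀ᶠ y : ℝ in atTop, ∀ x : ℝ, 1 ≤ x → x ≤ y → y ^ η ≤ y / x →
      (y / x) ^ (1 - ε * (1 - h) / 4) ≤ (⌊y / x / (16 * ((⌊((XB v y : ℕ) : ℝ) ^ h⌋₊ : ℕ) : ℝ))⌋₊ : ℝ) *
        ⌊(δ * ((XB v y : ℕ) : ℝ) ^ h / Real.log (XB v y)) / 2⌋₊ ∧
      1 / (64 * x) ≤ (⌊y / x / (16 * ((⌊((XB v y : ℕ) : ℝ) ^ h⌋₊ : ℕ) : ℝ))⌋₊ : ℝ) *
        (((⌊((XB v y : ℕ) : ℝ) ^ h⌋₊ : ℕ) : ℝ) / (2 * y)) ∧
      1 / 64 ≤ x ^ (1 - ε * (1 - h) / 4) *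
        ((⌊y / x / (16 * ((⌊((XB v y : ℕ) : ℝ) ^ h⌋₊ : ℕ) : ℝ))⌋₊ : ℝ) *
        ((⌊(δ * ((XB v y : ℕ) : ℝ) ^ h / Real.log (XB v y)) / 2⌋₊ : ℝ) * (1 / (2 * y))) ^ (1 - ε)) := by
  have h1h : 0 < 1 - h := by linarith
  set ε1 : ℝ := ε * (1 - h) / 4 with hε1def
  have hε1pos : 0 < ε1 := by rw [hε1def]; positivity
  filter_upwards [XB_facts v hv, HG_facts v h δ η hv hh hη hδ,
    ev_log (256 / δ) (η * ε1) (by apply mul_pos (by linarith) hε1pos),
    ev_log (8 / δ) ε1 hε1pos, ev_pow (δ * (v + 2) ^ h) ((1 - h) / 2) (by positivity),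
    eventually_ge_atTop (Real.exp 1)] with y hy1 hy2 hy3 hy4 hy5 hy6 x hx1 hxy hq
  obtain ⟨a1, a2, a3, a4, a5, a6⟩ := hy1
  obtain ⟨b1, b2, b3, b4, b5, b6⟩ := hy2
  have hy0 : 0 < y := by linarith
  have hx0 : 0 < x := by linarith
  set X : ℝ := ((XB v y : ℕ) : ℝ) with hX
  set L : ℝ := Real.log X with hL
  set H : ℝ := ((⌊X ^ h⌋₊ : ℕ) : ℝ) with hH
  set G : ℝ := δ * X ^ h / L with hG
  set q : ℝ := y / x with hqd
  have hX0 : 0 < X := by linarith
  have hH2 : (2 : ℝ) ≤ H := by rw [hH]; exact_mod_cast b1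
  have hH0 : 0 < H := by linarith
  have hXh : 0 < X ^ h := Real.rpow_pos_of_pos hX0 _
  have hq0 : 0 < q := div_pos hy0 hx0
  have hly : 1 ≤ Real.log y := by
    rw [← Real.log_exp 1]
    exact Real.log_le_log (Real.exp_pos 1) hy6
  have hLy : Real.log y ≤ L := Real.log_le_log hy0 a2
  have t2 : 2 ≤ q / (16 * H) := by
    rw [le_div_iff₀ (by positivity)]
    linarith
  have f1 : q / (32 * H) ≤ (⌊q / (16 * H)⌋₊ : ℝ) := by
    refine le_trans (le_of_eq ?_) (half_floor t2)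
    field_simp
    norm_num
  have f2 : G / 4 ≤ (⌊G / 2⌋₊ : ℝ) := by
    refine le_trans (le_of_eq ?_) (half_floor (t := G / 2) (by linarith))
    ring
  have hG0 : 0 < G := by linarith
  have g1 : δ / L ≤ G / H := by
    rw [div_le_div_iff₀ a5 hH0, hG]
    have : δ * X ^ h / L * L = δ * X ^ h := by field_simp
    rw [this]
    exact mul_le_mul_of_nonneg_left b2 hδ.le
  refine ⟨?_, ?_, ?_⟩
  · have e1 : q * (δ / (128 * L)) ≤ (⌊q / (16 * H)⌋₊ : ℝ) * ⌊G / 2⌋₊ := by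
      calc q * (δ / (128 * L)) = q / 128 * (δ / L) := by field_simp
        _ ≤ q / 128 * (G / H) := by gcongr
        _ = (q / (32 * H)) * (G / 4) := by field_simp; norm_num
        _ ≤ _ := by gcongr
    refine le_trans ?_ e1
    have e2 : q ^ (1 - ε1) * q ^ ε1 = q := by
      rw [← Real.rpow_add hq0]
      have : 1 - ε1 + ε1 = 1 := by ring
      rw [this, Real.rpow_one]
    have e3 : 128 * L / δ ≤ q ^ ε1 := by
      calc 128 * L / δ ≤ 128 * (2 * Real.log y) / δ := by gcongr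
        _ = 256 / δ * Real.log y := by ring
        _ ≤ y ^ (η * ε1) := hy3
        _ = (y ^ η) ^ ε1 := Real.rpow_mul hy0.le _ _
        _ ≤ q ^ ε1 := Real.rpow_le_rpow (Real.rpow_nonneg hy0.le _) hq hε1pos.le
    have e4 : 1 ≤ q ^ ε1 * (δ / (128 * L)) := by
      rw [div_le_iff₀ hδ] at e3
      rw [← mul_div_assoc, le_div_iff₀ (by positivity)]
      linarith
    calc q ^ (1 - ε1) = q ^ (1 - ε1) * 1 := (mul_one _).symm
      _ ≤ q ^ (1 - ε1) * (q ^ ε1 * (δ / (128 * L))) := by gcongr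
      _ = (q ^ (1 - ε1) * q ^ ε1) * (δ / (128 * L)) := by ring
      _ = q * (δ / (128 * L)) := by rw [e2]
  · calc 1 / (64 * x) = (q / (32 * H)) * (H / (2 * y)) := by rw [hqd]; field_simp; norm_num
      _ ≤ _ := by gcongr
  · have h1s : 0 < 1 - ε := by linarith
    -- lower bound for the last factor
    have e1 : (G / (8 * y)) ^ (1 - ε) ≤ ((⌊G / 2⌋₊ : ℝ) * (1 / (2 * y))) ^ (1 - ε) := by
      apply Real.rpow_le_rpow (by positivity) _ h1s.le
      calc G / (8 * y) = (G / 4) * (1 / (2 * y)) := by field_simp; norm_num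
        _ ≤ _ := by gcongr
    have hGy : 0 < G / (8 * y) := by positivity
    have e2 : (G / (8 * y)) ^ (1 - ε) = G / (8 * y) * (8 * y / G) ^ ε := by
      have h3 : (8 * y / G) = (G / (8 * y))⁻¹ := by rw [inv_div]
      rw [h3, Real.inv_rpow hGy.le, ← Real.rpow_neg hGy.le]
      nth_rewrite 2 [← Real.rpow_one (G / (8 * y))]
      rw [← Real.rpow_add hGy]
      congr 1
    have e3 : y ^ ((1 - h) / 2) ≤ 8 * y / G := by
      rw [le_div_iff₀ hG0, hG, ← mul_div_assoc, div_le_iff₀ a5]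
      have s1 : y ^ ((1 - h) / 2) * y ^ ((1 - h) / 2) * y ^ h = y := by
        rw [← Real.rpow_add hy0, ← Real.rpow_add hy0]
        have : (1 - h) / 2 + (1 - h) / 2 + h = 1 := by ring
        rw [this, Real.rpow_one]
      have hp : 0 < y ^ ((1 - h) / 2) := Real.rpow_pos_of_pos hy0 _
      have hph : 0 < y ^ h := Real.rpow_pos_of_pos hy0 _
      calc y ^ ((1 - h) / 2) * (δ * X ^ h) ≤ y ^ ((1 - h) / 2) * (δ * ((v + 2) ^ h * y ^ h)) := by gcongr
        _ = (δ * (v + 2) ^ h) * (y ^ ((1 - h) / 2) * y ^ h) := by ring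
        _ ≤ y ^ ((1 - h) / 2) * (y ^ ((1 - h) / 2) * y ^ h) := by gcongr
        _ = y ^ ((1 - h) / 2) * y ^ ((1 - h) / 2) * y ^ h := by ring
        _ = y := s1
        _ ≤ 8 * y * L := by nlinarith
    have e4 : y ^ (2 * ε1) ≤ (8 * y / G) ^ ε := by
      calc y ^ (2 * ε1) = (y ^ ((1 - h) / 2)) ^ ε := by
            rw [← Real.rpow_mul hy0.le]
            congr 1
            rw [hε1def]
            ring
        _ ≤ (8 * y / G) ^ ε := Real.rpow_le_rpow (Real.rpow_nonneg hy0.le _) e3 hε.le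
    have e5 : y ^ ε1 ≤ y ^ (2 * ε1) * (δ / (8 * Real.log y)) := by
      have s2 : y ^ (2 * ε1) = y ^ ε1 * y ^ ε1 := by
        rw [← Real.rpow_add hy0]; congr 1; ring
      have s3 : 1 ≤ y ^ ε1 * (δ / (8 * Real.log y)) := by
        have h4 : 8 / δ * Real.log y * δ ≤ y ^ ε1 * δ := mul_le_mul_of_nonneg_right hy4 hδ.le
        have h5 : 8 / δ * Real.log y * δ = 8 * Real.log y := by field_simp
        rw [← mul_div_assoc, le_div_iff₀ (by positivity)]
        linarith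
      have hp : 0 < y ^ ε1 := Real.rpow_pos_of_pos hy0 _
      rw [s2]
      nlinarith
    have hx1e : x ^ (1 - ε1) * x ^ ε1 = x := by
      rw [← Real.rpow_add hx0]
      have : 1 - ε1 + ε1 = 1 := by ring
      rw [this, Real.rpow_one]
    have hxe : x ^ ε1 ≤ y ^ ε1 := Real.rpow_le_rpow hx0.le hxy hε1pos.le
    have hxe0 : 0 < x ^ ε1 := Real.rpow_pos_of_pos hx0 _
    have hx1e0 : 0 < x ^ (1 - ε1) := Real.rpow_pos_of_pos hx0 _
    calc (1 : ℝ) / 64 ≤ x ^ (1 - ε1) * (x ^ ε1 / x) / 64 := by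
          rw [mul_div_assoc', hx1e, div_self hx0.ne']
      _ ≤ x ^ (1 - ε1) * (y ^ ε1 / x) / 64 := by gcongr
      _ ≤ x ^ (1 - ε1) * ((y ^ (2 * ε1) * (δ / (8 * Real.log y))) / x) / 64 := by gcongr
      _ = x ^ (1 - ε1) * ((1 / (256 * x)) * (δ / (2 * Real.log y)) * y ^ (2 * ε1)) := by
          field_simp
          norm_num
      _ ≤ x ^ (1 - ε1) * ((1 / (256 * x)) * (δ / L) * y ^ (2 * ε1)) := by
          gcongr
      _ ≤ x ^ (1 - ε1) * ((1 / (256 * x)) * (G / H) * (8 * y / G) ^ ε) := by gcongr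
      _ = x ^ (1 - ε1) * ((q / (32 * H)) * ((G / (8 * y)) * (8 * y / G) ^ ε)) := by
          rw [hqd]
          field_simp
          norm_num
      _ = x ^ (1 - ε1) * ((q / (32 * H)) * (G / (8 * y)) ^ (1 - ε)) := by rw [e2]
      _ ≤ _ := by gcongr

end Pool.Agent.Q273.CH
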