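import Mathlib
import Pool.Agent.Q273.CH.Exc5

/-!
# Cantor trees with sparse exceptional windows: the theorem
-/

set_option autoImplicit false

namespace Pool.Agent.Q273.CH

open Set Filter Topology MeasureTheory
open scoped ENNReal NNReal

lemma XB_tendsto (v : ℝ) (hv : 0 < v) : Tendsto (fun y : ℝ => XB v y) atTop atTop := by
  rw [← tendsto_natCast_atTop_iff (R := ℝ)]
  refine tendsto_atTop_mono' _ ?_ tendsto_id
  filter_upwards [XB_facts v hv] with y hy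
  exact hy.2.1

lemma quot_ge {C x y : ℝ} (hC : 1 < C) (hx : 1 ≤ x) (hxy : x ^ C ≤ y) : y ^ (1 - 1 / C) ≤ y / x ∧ x ≤ y := by
  have hx0 : 0 < x := by linarith
  have hC0 : 0 < C := by linarith
  have hxC1 : x ≤ x ^ C := by
    calc x = x ^ (1 : ℝ) := (Real.rpow_one x).symm
      _ ≤ x ^ C := Real.rpow_le_rpow_of_exponent_le hx hC.le
  have hy0 : 0 < y := by linarith
  refine ⟨?_, hxC1.trans hxy⟩
  have h2 : x ≤ y ^ (1 / C) := by
    calc x = (x ^ C) ^ (1 / C) := by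
          rw [← Real.rpow_mul hx0.le]
          have : C * (1 / C) = 1 := by field_simp
          rw [this, Real.rpow_one]
      _ ≤ y ^ (1 / C) := Real.rpow_le_rpow (Real.rpow_nonneg hx0.le _) hxy (by positivity)
  rw [le_div_iff₀ hx0]
  calc y ^ (1 - 1 / C) * x ≤ y ^ (1 - 1 / C) * y ^ (1 / C) := by
        gcongr
    _ = y := by
        rw [← Real.rpow_add hy0]
        have : 1 - 1 / C + 1 / C = 1 := by ring
        rw [this, Real.rpow_one]

open Classical in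
/-- the data -/
noncomputable def dat (v h δ : ℝ) (x : ℕ → ℝ) (P : ℕ → ℕ → Prop) : Dat where
  X := fun k => XB v (x k)
  H := fun k => ⌊((XB v (x k) : ℕ) : ℝ) ^ h⌋₊
  q := fun k => x (k + 1) / x k
  G := fun k => δ * ((XB v (x k) : ℕ) : ℝ) ^ h / Real.log (XB v (x k))
  P := fun k => P (XB v (x k))

open Classical in
/-- **the theorem**: properties which occur in all but few windows -/
theorem exc_dim (C h ρ δ : ℝ) (hC : 1 < C) (hh : 0 < h) (hη : h < 1 - 1 / C) (hδ : 0 < δ)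
    (hρ0 : 0 ≤ ρ) (hρ1 : ρ < 1) (u v : ℝ) (hu : 0 < u) (huv : u < v) (x : ℕ → ℝ) (hx : ∀ n, 0 < x n)
    (hxt : Tendsto x atTop atTop) (hgrow : ∀ᶠ n in atTop, (x n) ^ C ≤ x (n + 1))
    (P : ℕ → ℕ → Prop)
    (hP : ∀ᶠ X : ℕ in atTop, ((((Finset.Icc 1 X).filter fun N =>
      (wcnt (P X) N ⌊(X : ℝ) ^ h⌋₊ : ℝ) < δ * (X : ℝ) ^ h / Real.log X).card : ℕ) : ℝ) ≤ (X : ℝ) ^ ρ)
    (s : ℝ≥0) (hs : 0 < s) (hs1 : s < 1) :
    (s : ℝ≥0∞) ≤ dimH {α : ℝ | u ≤ α ∧ α ≤ v ∧ ∀ᶠ n in atTop, ∃ m : ℕ, P (XB v (x n)) m ∧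
      (m : ℝ) ≤ α * x n ∧ α * x n ≤ m + 1 / 2} := by
  have hv : 0 < v := by linarith
  have hs0 : (0 : ℝ) < s := by exact_mod_cast hs
  have hsr : (s : ℝ) < 1 := by exact_mod_cast hs1
  have hiC : 1 / C < 1 := by rw [div_lt_one (by linarith)]; exact hC
  have hiC0 : 0 < 1 / C := by have : 0 < C := by linarith
                              positivity
  set κ : ℝ := (1 - ρ) / 2 with hκ
  have hκ0 : 0 < κ := by rw [hκ]; linarith
  have hκ1 : κ < 1 := by rw [hκ]; linarith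
  set ε : ℝ := 1 - s with hε
  have hε0 : 0 < ε := by rw [hε]; linarith
  have hε1 : ε < 1 := by rw [hε]; linarith
  set D : Dat := dat v h δ x P with hD
  have hx1t : Tendsto (fun k => x (k + 1)) atTop atTop := (tendsto_add_atTop_iff_nat 1).2 hxt
  have hXt : Tendsto (fun k => XB v (x (k + 1))) atTop atTop := (XB_tendsto v hv).comp hx1t
  obtain ⟨k1, hk1⟩ := eventually_atTop.1 (hgrow.and ((hxt.eventually_ge_atTop 1).and
    ((hx1t.eventually (XB_facts v hv)).and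
    ((hx1t.eventually (HG_facts v h δ (1 - 1 / C) hv hh hη hδ)).and
    ((hx1t.eventually (rec_facts v h δ ρ C κ hv hh hC hη hδ hρ0 hκ0 le_rfl)).and
    ((hx1t.eventually (prod_facts v h δ ε (1 - 1 / C) hv hh hη (by linarith) hδ hε0 hε1)).and
    ((hXt.eventually hP).and ((hx1t.eventually_ge_atTop (1 / u)).and
    ((hxt.eventually (XB_facts v hv)).and
    (hxt.eventually ((ev_pow (4 / (v - u)) κ hκ0).and (ev_pow (16 / (v - u)) 1 one_pos))))))))))))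
  have hq' : ∀ k ≥ k1, (x (k + 1)) ^ (1 - 1 / C) ≤ x (k + 1) / x k ∧ x k ≤ x (k + 1) := fun k hk =>
    quot_ge hC (hk1 k hk).2.1 (hk1 k hk).1
  have hvu : 0 < v - u := by linarith
  -- few nodes do not survive
  have hBN := D.BN_le x u v k1 (fun k => (x k) ^ (1 - κ)) (fun k => ((XB v (x k) : ℕ) : ℝ) ^ ρ) hx
    (fun k => rfl) (fun k hk => ?_) (fun k hk => ?_) (fun k hk => ?_) (fun k hk => ?_)
    (fun k hk => ?_) (fun k => Real.rpow_nonneg (hx k).le _) (fun k hk => ?_)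
  rotate_left
  · have h2 := (hk1 k hk).2.2.2.1.2.2.2.1
    have h3 := (hq' k hk).1
    show ((⌊((XB v (x (k + 1)) : ℕ) : ℝ) ^ h⌋₊ : ℕ) : ℝ) + 2 ≤ x (k + 1) / x k / 4
    linarith
  · exact (hk1 k hk).2.2.1.2.2.2.1
  · have h2 := (hk1 k hk).2.2.2.2.2.2.2.1
    rw [div_le_iff₀ hu] at h2
    linarith
  · exact (hk1 k hk).2.2.2.2.2.2.1
  · have h2 := (hk1 k hk).2.2.2.1.2.2.2.2.2
    show 0 < δ * ((XB v (x (k + 1)) : ℕ) : ℝ) ^ h / Real.log (XB v (x (k + 1)))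
    linarith
  · exact (hk1 k hk).2.2.2.2.1 (x k) (hk1 k hk).2.1 (hk1 k hk).1
  -- the root
  obtain ⟨m0, hm1, hm2, hm3⟩ : ∃ m0 : ℕ, u * x k1 ≤ m0 ∧ (m0 : ℝ) + 1 ≤ v * x k1 ∧ m0 ∈ D.Sv k1 := by
    obtain ⟨J, hJ⟩ := D.depth k1 (Finset.range (D.X k1 + 1))
    by_contra hne
    push Not at hne
    have h1 := hk1 k1 le_rfl
    have hux : 0 < u * x k1 := mul_pos hu (hx k1)
    have hsub : ((Finset.Icc 1 (D.X k1)).filter fun N : ℕ => (u * x k1 + 1) ≤ N ∧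
        (N : ℝ) + 1 ≤ v * x k1) ⊆ D.BN x u v J k1 := by
      intro m hm
      simp only [Finset.mem_filter, Finset.mem_Icc] at hm
      obtain ⟨⟨b1, b2⟩, b3, b4⟩ := hm
      simp only [Dat.BN, Finset.mem_filter, Finset.mem_range]
      refine ⟨by omega, by linarith, b4, ?_⟩
      by_contra hns
      exact hne m (by linarith) b4 (hJ m (Finset.mem_range.2 (by omega)) hns)
    have h2 := card_range_ge (D.X k1) (u * x k1 + 1) (v * x k1) 1 (by linarith)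
      h1.2.2.2.2.2.2.2.2.1.2.2.2.1 (by norm_num)
    have h3 : ((((Finset.Icc 1 (D.X k1)).filter fun N : ℕ => (u * x k1 + 1) ≤ N ∧
        (N : ℝ) + 1 ≤ v * x k1).card : ℕ) : ℝ) ≤ ((D.BN x u v J k1).card : ℝ) := by
      exact_mod_cast Finset.card_le_card hsub
    have h4 := hBN J k1 le_rfl
    have h5 : 16 ≤ (v - u) * x k1 := by
      have := h1.2.2.2.2.2.2.2.2.2.2
      rw [Real.rpow_one, div_le_iff₀ hvu] at this
      linarith
    have h6 : 4 * (x k1) ^ (1 - κ) ≤ (v - u) * x k1 := by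
      have h7 := h1.2.2.2.2.2.2.2.2.2.1
      rw [div_le_iff₀ hvu] at h7
      have h8 : x k1 = (x k1) ^ κ * (x k1) ^ (1 - κ) := by
        rw [← Real.rpow_add (hx k1)]
        have : κ + (1 - κ) = 1 := by ring
        rw [this, Real.rpow_one]
      have h9 : 0 < (x k1) ^ (1 - κ) := Real.rpow_pos_of_pos (hx k1) _
      calc 4 * (x k1) ^ (1 - κ) ≤ ((x k1) ^ κ * (v - u)) * (x k1) ^ (1 - κ) := by gcongr
        _ = (v - u) * ((x k1) ^ κ * (x k1) ^ (1 - κ)) := by ring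
        _ = (v - u) * x k1 := by rw [← h8]
    have h10 : 1 ≤ (x k1) ^ (1 - κ) := by
      have := Real.rpow_le_rpow (by norm_num : (0 : ℝ) ≤ 1) h1.2.1 (show 0 ≤ 1 - κ by linarith)
      rwa [Real.one_rpow] at this
    linarith
  -- the products
  set ε1 : ℝ := ε * (1 - h) / 4 with hε1def
  have h1h : h < 1 := by linarith
  have hε1pos : 0 < ε1 := by
    rw [hε1def]
    have : 0 < 1 - h := by linarith
    positivity
  have hε1s : (s : ℝ) ≤ 1 - ε1 := by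
    have : ε1 ≤ ε := by rw [hε1def]; nlinarith
    have h2 : (s : ℝ) = 1 - ε := by rw [hε]; ring
    rw [h2]
    linarith
  have hxk : ∀ K, 1 ≤ x (k1 + K) := fun K => (hk1 (k1 + K) (by omega)).2.1
  have hfac : ∀ K, _ := fun K => (hk1 (k1 + K) (by omega)).2.2.2.2.2.1 (x (k1 + K)) (hxk K)
    (hq' (k1 + K) (by omega)).2 (hq' (k1 + K) (by omega)).1
  have hPr : ∀ K, (x (k1 + K) / x k1) ^ (1 - ε1) ≤
      ∏ i ∈ Finset.range K, ((⌊D.q (k1 + i) / (16 * D.H (k1 + i + 1))⌋₊ : ℝ) *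
      ⌊D.G (k1 + i + 1) / 2⌋₊) := by
    intro K
    induction K with
    | zero => simp [(hx k1).ne']
    | succ K ih =>
      rw [Finset.prod_range_succ]
      have e1 : x (k1 + (K + 1)) / x k1 = (x (k1 + K) / x k1) * (x (k1 + K + 1) / x (k1 + K)) := by
        have := hx (k1 + K)
        have := hx k1
        rw [show k1 + (K + 1) = k1 + K + 1 by ring]
        field_simp
      rw [e1, Real.mul_rpow (div_pos (hx _) (hx _)).le (div_pos (hx _) (hx _)).le]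
      apply mul_le_mul ih (hfac K).1 (Real.rpow_nonneg (div_pos (hx _) (hx _)).le _)
      exact Finset.prod_nonneg fun i _ => by positivity
  set c : ℝ := ((x k1) ^ (1 - ε1))⁻¹ / 64 with hc
  have hx0 := hx k1
  have hcx : 0 < ((x k1) ^ (1 - ε1))⁻¹ := inv_pos.2 (Real.rpow_pos_of_pos hx0 _)
  have hPq : ∀ K, ((x k1) ^ (1 - ε1))⁻¹ * (x (k1 + K)) ^ (1 - ε1) = (x (k1 + K) / x k1) ^ (1 - ε1) := by
    intro K
    rw [Real.div_rpow (hx _).le hx0.le]
    ring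
  have key := D.tree x u v k1 s hs hsr.le c (by positivity) hx hxt (fun _ => rfl)
    (fun k hk => (hk1 k hk).2.2.2.1.1) ?_ (fun k hk => ?_) (fun k hk => (hk1 k hk).2.2.2.1.2.2.2.2.2)
    (fun K => ?_) (fun K => ?_) m0 hm1 hm2 hm3
  · refine key.trans (dimH_mono ?_)
    rintro α ⟨g1, g2, g3⟩
    refine ⟨g1, g2, ?_⟩
    filter_upwards [eventually_ge_atTop (k1 + 1)] with n hn
    obtain ⟨i, rfl⟩ : ∃ i, n = k1 + i + 1 := ⟨n - k1 - 1, by omega⟩
    exact g3 i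
  · -- the windows are short
    have h2 : Tendsto (fun y : ℝ => y ^ (-(1 / C))) atTop (𝓝 0) := tendsto_rpow_neg_atTop hiC0
    refine squeeze_zero' (Eventually.of_forall fun k => ?_) ?_ (h2.comp hxt)
    · have := hx k
      positivity
    · filter_upwards [hxt.eventually (HG_facts v h δ (1 - 1 / C) hv hh hη hδ)] with k hk
      have hxk0 := hx k
      have h3 := hk.2.2.2.1
      have hp : 0 < (x k) ^ (1 - 1 / C) := Real.rpow_pos_of_pos hxk0 _
      show (((⌊((XB v (x k) : ℕ) : ℝ) ^ h⌋₊ : ℕ) : ℝ) + 1) / x k ≤ (x k) ^ (-(1 / C))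
      rw [div_le_iff₀ hxk0]
      calc ((⌊((XB v (x k) : ℕ) : ℝ) ^ h⌋₊ : ℕ) : ℝ) + 1 ≤ (x k) ^ (1 - 1 / C) := by linarith
        _ = (x k) ^ (-(1 / C)) * x k := by
            nth_rewrite 3 [← Real.rpow_one (x k)]
            rw [← Real.rpow_add hxk0]
            congr 1
            ring
  · have h2 := (hk1 k hk).2.2.2.1.2.2.2.2.1
    have h3 := (hq' k hk).1
    have h4 : 2 ≤ D.H (k + 1) := (hk1 k hk).2.2.2.1.1
    have h5 : (0 : ℝ) < D.H (k + 1) := by exact_mod_cast (by omega : 0 < D.H (k + 1))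
    rw [le_div_iff₀ (by positivity)]
    exact h2.trans h3
  · -- even levels
    have h2 := (hfac K).2.1
    have hxK := hx (k1 + K)
    have h3 : (1 / (64 * x (k1 + K))) ^ (s : ℝ) ≤ ((⌊D.q (k1 + K) / (16 * D.H (k1 + K + 1))⌋₊ : ℝ) *
        (D.H (k1 + K + 1) / (2 * x (k1 + K + 1)))) ^ (s : ℝ) :=
      Real.rpow_le_rpow (by positivity) h2 hs0.le
    have h4 : (1 : ℝ) / 64 * ((x (k1 + K)) ^ (s : ℝ))⁻¹ ≤ (1 / (64 * x (k1 + K))) ^ (s : ℝ) := by
      rw [one_div, one_div, Real.inv_rpow (by positivity), Real.mul_rpow (by norm_num) hxK.le, mul_inv]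
      apply mul_le_mul_of_nonneg_right _ (inv_nonneg.2 (Real.rpow_nonneg hxK.le _))
      apply inv_anti₀ (Real.rpow_pos_of_pos (by norm_num) _)
      calc (64 : ℝ) ^ (s : ℝ) ≤ 64 ^ (1 : ℝ) := Real.rpow_le_rpow_of_exponent_le (by norm_num) hsr.le
        _ = 64 := Real.rpow_one _
    have h5 : 1 ≤ (x (k1 + K)) ^ (1 - ε1) * ((x (k1 + K)) ^ (s : ℝ))⁻¹ := by
      rw [← div_eq_mul_inv, le_div_iff₀ (Real.rpow_pos_of_pos hxK _), one_mul]
      exact Real.rpow_le_rpow_of_exponent_le (hxk K) hε1s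
    calc c = ((x k1) ^ (1 - ε1))⁻¹ * 1 * (1 / 64) := by rw [hc]; ring
      _ ≤ ((x k1) ^ (1 - ε1))⁻¹ * ((x (k1 + K)) ^ (1 - ε1) * ((x (k1 + K)) ^ (s : ℝ))⁻¹) * (1 / 64) := by
          gcongr
      _ = (((x k1) ^ (1 - ε1))⁻¹ * (x (k1 + K)) ^ (1 - ε1)) * (1 / 64 * ((x (k1 + K)) ^ (s : ℝ))⁻¹) := by ring
      _ = (x (k1 + K) / x k1) ^ (1 - ε1) * (1 / 64 * ((x (k1 + K)) ^ (s : ℝ))⁻¹) := by rw [hPq]
      _ ≤ _ := mul_le_mul (hPr K) (h4.trans h3) (by positivity)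
          (Finset.prod_nonneg fun i _ => by positivity)
  · -- odd levels
    have h2 := (hfac K).2.2
    have hes : 1 - ε = (s : ℝ) := by rw [hε]; ring
    rw [hes] at h2
    calc c = ((x k1) ^ (1 - ε1))⁻¹ * (1 / 64) := by rw [hc]; ring
      _ ≤ ((x k1) ^ (1 - ε1))⁻¹ * ((x (k1 + K)) ^ (1 - ε1) *
          ((⌊D.q (k1 + K) / (16 * D.H (k1 + K + 1))⌋₊ : ℝ) *
          ((⌊D.G (k1 + K + 1) / 2⌋₊ : ℝ) * (1 / (2 * x (k1 + K + 1)))) ^ (s : ℝ))) :=
          mul_le_mul_of_nonneg_left h2 hcx.le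
      _ = (x (k1 + K) / x k1) ^ (1 - ε1) * ((⌊D.q (k1 + K) / (16 * D.H (k1 + K + 1))⌋₊ : ℝ) *
          ((⌊D.G (k1 + K + 1) / 2⌋₊ : ℝ) * (1 / (2 * x (k1 + K + 1)))) ^ (s : ℝ)) := by
          rw [← hPq]; ring
      _ ≤ (∏ i ∈ Finset.range K, ((⌊D.q (k1 + i) / (16 * D.H (k1 + i + 1))⌋₊ : ℝ) *
          ⌊D.G (k1 + i + 1) / 2⌋₊)) * ((⌊D.q (k1 + K) / (16 * D.H (k1 + K + 1))⌋₊ : ℝ) *
          ((⌊D.G (k1 + K + 1) / 2⌋₊ : ℝ) * (1 / (2 * x (k1 + K + 1)))) ^ (s : ℝ)) := by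
          apply mul_le_mul_of_nonneg_right (hPr K)
          have := hx (k1 + K + 1)
          positivity
      _ = _ := by ring

end Pool.Agent.Q273.CH
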