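import Mathlib
import Pool.Agent.Q273.CH.Base

/-!
# From `Far` to consecutive primes
-/

set_option autoImplicit false

namespace Pool.Agent.Q273.CH

open Set Filter Topology MeasureTheory
open scoped ENNReal NNReal

theorem Far.gap {H y : ℝ} (hy : 2 ≤ y) (h : Far H y) : ∃ m : ℕ,
    (Nat.nth Nat.Prime m : ℝ) ≤ y ∧ y ≤ (Nat.nth Nat.Prime (m + 1) : ℝ) ∧
      2 * H < (Nat.nth Nat.Prime (m + 1) : ℝ) - (Nat.nth Nat.Prime m : ℝ) := by
  set k : ℕ := Nat.count Nat.Prime (⌊y⌋₊ + 1) with hk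
  have h2 : 2 ≤ ⌊y⌋₊ := Nat.le_floor (by exact_mod_cast hy)
  have hkpos : 0 < k := by
    have := Nat.count_strict_mono (p := Nat.Prime) Nat.prime_two (show 2 < ⌊y⌋₊ + 1 by omega)
    omega
  have hlt : Nat.nth Nat.Prime (k - 1) < ⌊y⌋₊ + 1 := Nat.nth_lt_of_lt_count (by omega)
  have hge : ⌊y⌋₊ + 1 ≤ Nat.nth Nat.Prime k := by
    rw [hk]
    exact Nat.le_nth_count Nat.infinite_setOfPred_prime _
  have hy0 : 0 ≤ y := by linarith
  have e1 : (Nat.nth Nat.Prime (k - 1) : ℝ) ≤ y := by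
    have h3 : Nat.nth Nat.Prime (k - 1) ≤ ⌊y⌋₊ := by omega
    calc (Nat.nth Nat.Prime (k - 1) : ℝ) ≤ (⌊y⌋₊ : ℝ) := by exact_mod_cast h3
      _ ≤ y := Nat.floor_le hy0
  have e2 : y ≤ (Nat.nth Nat.Prime (k - 1 + 1) : ℝ) := by
    rw [Nat.sub_add_cancel hkpos]
    have h3 : y < ⌊y⌋₊ + 1 := Nat.lt_floor_add_one y
    have h4 : ((⌊y⌋₊ + 1 : ℕ) : ℝ) ≤ (Nat.nth Nat.Prime k : ℝ) := by exact_mod_cast hge
    push_cast at h4
    linarith
  refine ⟨k - 1, e1, e2, ?_⟩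
  have h5 := h _ (Nat.prime_nth_prime (k - 1))
  have h6 := h _ (Nat.prime_nth_prime (k - 1 + 1))
  rw [abs_of_nonpos (by linarith)] at h5
  rw [abs_of_nonneg (by linarith)] at h6
  linarith

end Pool.Agent.Q273.CH
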