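import Mathlib
import Pool.Agent.Q273.CH.Exc6
import Pool.Agent.Results.MP_7169d5_nt.ShortIntervalsFewExceptions

/-!
# Almost prime values `m ^ 2 + a` at every term
-/

set_option autoImplicit false

namespace Pool.Agent.Q273.CH

open Set Filter Topology MeasureTheory
open scoped ENNReal NNReal

/-- `m ^ 2 + a` has at most `r` prime factors, all of them at least `m ^ z` -/
def QGood (a : ℤ) (r : ℕ) (z : ℝ) (m : ℕ) : Prop :=
  ((m : ℤ) ^ 2 + a).natAbs.primeFactorsList.length ≤ r ∧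
    ∀ p : ℕ, p.Prime → (p : ℤ) ∣ (m : ℤ) ^ 2 + a → (m : ℝ) ^ z ≤ p

theorem quad_dim (a : ℤ) (ha : ¬ IsSquare (-a)) (r : ℕ) (t z : ℝ)
    (hpar : (r = 5 ∧ 1 / 2 ≤ t ∧ z = 2 / 5 * t) ∨ (r = 4 ∧ 269 / 500 ≤ t ∧ z = t / 4) ∨
      (r = 3 ∧ 29 / 40 ≤ t ∧ z = t / 4)) (ht : t < 1) (C : ℝ) (hC : 1 < C * (2 - 2 * t))
    (x : ℕ → ℝ) (hx : ∀ n, 0 < x n) (hxt : Tendsto x atTop atTop)
    (hgrow : ∀ᶠ n in atTop, (x n) ^ C ≤ x (n + 1)) (u v : ℝ) (hu : 0 < u) (huv : u < v) :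
    dimH {α : ℝ | u < α ∧ α < v ∧ ∀ᶠ n in atTop, QGood a r z ⌊α * x n⌋₊} = 1 := by
  classical
  have ht2 : 1 / 2 ≤ t := by rcases hpar with h | h | h <;> linarith [h.2.1]
  have hz : 0 ≤ z := by rcases hpar with h | h | h <;> rw [h.2.2] <;> linarith
  have hC0 : 0 < C := by
    by_contra hne
    push Not at hne
    nlinarith
  have hC1 : 1 < C := by nlinarith
  have hCt : 2 * t - 1 < 1 - 1 / C := by
    have : 1 / C < 2 - 2 * t := by
      rw [div_lt_iff₀ hC0]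
      linarith
    linarith
  have hiC : 0 < 1 / C := by positivity
  apply le_antisymm
  · calc dimH _ ≤ dimH (univ : Set ℝ) := dimH_mono (subset_univ _)
      _ = 1 := Real.dimH_univ
  · refine le_of_forall_lt fun s hs => ?_
    have hs1 : s ≠ ∞ := (hs.trans ENNReal.one_lt_top).ne
    lift s to ℝ≥0 using hs1
    have hs2 : s < 1 := by exact_mod_cast hs
    obtain ⟨s', hs3, hs4⟩ := exists_between hs2
    have hs'0 : 0 < s' := lt_of_le_of_lt bot_le hs3
    refine lt_of_lt_of_le (show (s : ℝ≥0∞) < (s' : ℝ≥0∞) by exact_mod_cast hs3) ?_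
    set h : ℝ := ((2 * t - 1) + (1 - 1 / C)) / 2 with hh
    have h0 : 0 < h := by rw [hh]; linarith
    have h1 : h < 1 - 1 / C := by rw [hh]; linarith
    have h2 : 2 * t - 1 < h := by rw [hh]; linarith
    set ρ : ℝ := (1 + (2 * t - h)) / 2 with hρ
    obtain ⟨δ, hδ, hP⟩ := Pool.Agent.Results.MP_7169d5_nt.ShortIntervalsFewExceptions.result a ha r t z
      hpar ht h ((1 - (2 * t - h)) / 2) h0 (by linarith) (by linarith)
    have key := exc_dim C h ρ δ hC1 h0 h1 hδ (by rw [hρ]; linarith) (by rw [hρ]; linarith) u v hu huv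
      x hx hxt hgrow (fun X n => ((n : ℤ) ^ 2 + a).natAbs.primeFactorsList.length ≤ r ∧
        ∀ p : ℕ, p.Prime → (p : ℤ) ∣ (n : ℤ) ^ 2 + a → (X : ℝ) ^ z ≤ p) ?_ s' hs'0 hs4
    · refine key.trans ?_
      have hsub : {α : ℝ | u ≤ α ∧ α ≤ v ∧ ∀ᶠ n in atTop, ∃ m : ℕ,
          (((m : ℤ) ^ 2 + a).natAbs.primeFactorsList.length ≤ r ∧
          ∀ p : ℕ, p.Prime → (p : ℤ) ∣ (m : ℤ) ^ 2 + a → ((XB v (x n) : ℕ) : ℝ) ^ z ≤ p) ∧
          (m : ℝ) ≤ α * x n ∧ α * x n ≤ m + 1 / 2} ⊆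
          {α : ℝ | u < α ∧ α < v ∧ ∀ᶠ n in atTop, QGood a r z ⌊α * x n⌋₊} ∪ {u, v} := by
        rintro α ⟨g1, g2, g3⟩
        by_cases hα : α = u ∨ α = v
        · right
          rcases hα with rfl | rfl <;> simp
        · left
          push Not at hα
          refine ⟨lt_of_le_of_ne g1 (Ne.symm hα.1), lt_of_le_of_ne g2 hα.2, ?_⟩
          filter_upwards [g3, hxt.eventually (XB_facts v (by linarith))] with n hn1 hn2
          obtain ⟨m, ⟨m1, m2⟩, m3, m4⟩ := hn1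
          have hfl : ⌊α * x n⌋₊ = m := by
            rw [Nat.floor_eq_iff ((Nat.cast_nonneg m).trans m3)]
            exact ⟨m3, by linarith⟩
          rw [hfl]
          refine ⟨m1, fun p hp hpd => le_trans ?_ (m2 p hp hpd)⟩
          apply Real.rpow_le_rpow (Nat.cast_nonneg m) _ hz
          calc (m : ℝ) ≤ α * x n := m3
            _ ≤ v * x n := mul_le_mul_of_nonneg_right g2 (hx n).le
            _ ≤ XB v (x n) := hn2.2.2.2.1
      refine (dimH_mono hsub).trans ?_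
      rw [dimH_union, (Set.toFinite {u, v}).dimH_zero]
      simp
    · filter_upwards [hP] with X hX
      have e1 : 2 * t - h + (1 - (2 * t - h)) / 2 = ρ := by rw [hρ]; ring
      rw [e1] at hX
      refine le_trans (le_of_eq ?_) hX
      congr 1
      congr 1
      apply Finset.filter_congr
      intro N _
      have e2 : wcnt (fun n => ((n : ℤ) ^ 2 + a).natAbs.primeFactorsList.length ≤ r ∧
          ∀ p : ℕ, p.Prime → (p : ℤ) ∣ (n : ℤ) ^ 2 + a → (X : ℝ) ^ z ≤ p) N ⌊(X : ℝ) ^ h⌋₊ =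
          Pool.Agent.Results.MP_7169d5_nt.ShortIntervalsFewExceptions.almostPrimes a r
            ((X : ℝ) ^ z) N ⌊(X : ℝ) ^ h⌋₊ := by
        unfold wcnt Pool.Agent.Results.MP_7169d5_nt.ShortIntervalsFewExceptions.almostPrimes
        exact congrArg Finset.card (by ext n; simp only [Finset.mem_filter])
      rw [e2]

end Pool.Agent.Q273.CH
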